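import Pool.Agent.Helper22.AI.Low
import Pool.Agent.Helper93.AO.Stek

/-!
# AI-FIN: the regularity of `Hx`, the levels
-/

open MeasureTheory Real Set Filter Topology

set_option autoImplicit false
set_option linter.unusedSectionVars false

namespace Pool.Agent.Helper22.AI

open Pool.Agent.Helper93.AO

variable [Amp]

theorem hx_cd {H₀ : ℝ → ℝ} (h2 : ContDiff ℝ 2 H₀) (τ : ℝ) (ω : Om) : ContDiff ℝ 2 (Hx H₀ τ ω) := by
  have h : ContDiff ℝ 2 (WW ω) := (WW_smooth_all ω 2).of_le (by norm_num)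
  exact h2.add (contDiff_const.mul h)

theorem hx_pd {H₀ : ℝ → ℝ} (hp : Function.Periodic H₀ (2 * π)) (τ : ℝ) (ω : Om) : Function.Periodic (Hx H₀ τ ω) (2 * π) := by
  intro t
  unfold Hx
  rw [hp t, WW_per ω t]

/-- the levels tend to infinity -/
theorem t_one : ∀ m : ℕ, ∃ p₀ : ℕ, ∀ p : ℕ, p₀ ≤ p → m ≤ Amp.T p := by
  intro m
  obtain ⟨pb, hpb⟩ := eventually_atTop.1 Amp.big
  refine ⟨pb + m ^ 2, fun p hp => ?_⟩
  have h1 := hpb p (by omega)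
  have h2 : m ^ 2 ≤ Amp.T p ^ 2 := by omega
  exact (Nat.pow_le_pow_iff_left (by norm_num)).1 h2

/-- the levels are `o(p)` -/
theorem t_two : ∀ ε : ℝ, 0 < ε → ∃ p₀ : ℕ, ∀ p : ℕ, p₀ ≤ p → (Amp.T p : ℝ) ≤ ε * p := by
  intro ε hε
  obtain ⟨C, hC⟩ := Amp.sup ⌈1 / ε⌉₊
  refine ⟨2 * C, fun p hp => ?_⟩
  have h1 := hC (Amp.T p)
  have h2 := Amp.lvl p
  have h3 : 1 / ε ≤ (⌈1 / ε⌉₊ : ℝ) := Nat.le_ceil _
  have h4 : (⌈1 / ε⌉₊ : ℝ) * (Amp.T p : ℝ) ≤ (Amp.am (Amp.T p) : ℝ) + C := by exact_mod_cast h1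
  have h5 : 2 * (Amp.am (Amp.T p) : ℝ) ≤ p := by exact_mod_cast h2
  have h6 : 2 * (C : ℝ) ≤ p := by exact_mod_cast hp
  have h7 : 1 / ε * (Amp.T p : ℝ) ≤ p := by
    have h8 : 1 / ε * (Amp.T p : ℝ) ≤ (⌈1 / ε⌉₊ : ℝ) * (Amp.T p : ℝ) := mul_le_mul_of_nonneg_right h3 (Nat.cast_nonneg _)
    linarith
  calc (Amp.T p : ℝ) = ε * (1 / ε * (Amp.T p : ℝ)) := by field_simp
    _ ≤ ε * p := mul_le_mul_of_nonneg_left h7 hε.le

end Pool.Agent.Helper22.AI
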