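import Pool.Agent.Helper22.AI.Lower
import Pool.Agent.Helper22.AI.Fin
import Pool.Agent.Helper93.EX.Ae
import Pool.Agent.Helper99.EY.Trunc2

/-!
# AI: the exact law, almost surely

As `Pool.Agent.Helper93.EX.Ae`, for the random function of class `C^∞`. The bounds of the high blocks are the hypothesis `SBh`.
-/

open MeasureTheory Set Real Filter

set_option autoImplicit false
set_option linter.unusedSectionVars false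

namespace Pool.Agent.Helper22.AI

open Pool.Agent.Helper93.EX hiding upper_all lower_all as_law

variable [Amp]

open Pool.Agent.Helper93.AO
open Pool.Agent.Helper22.AE (rho nk tk box cz)
open Pool.Agent.Helper88.EX (idf Es Es_one Es_neg Es_le ErO trunc_open)
open Pool.Agent.Helper99.EY (SBl SBh trunc_h)

/-- `a.s. hU` for all rational parameters -/
theorem upper_all {H₀ : ℝ → ℝ} (h2 : ContDiff ℝ 2 H₀) (hp : Function.Periodic H₀ (2 * π)) {τ : ℝ} (hτ : τ ≠ 0) {σ : ℝ} (hσ : |σ| = 1) :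
    ∀ᵐ ω ∂(PP nu1), ∀ (ell ε : ℚ) (a : ℕ), 0 < ell → 0 < ε → ∃ p₀ : ℕ, ∀ p : ℕ, p₀ ≤ p → ∀ R ∈ Icc ((2 : ℝ) ^ p) (2 ^ (p + 1)), ∀ c : ℝ × ℝ,
      σ * (ell * Lx p ^ (3 / 4 : ℝ)) * Mx (Hx H₀ τ ω) (NN a p) R c ≤ CX σ (Hx H₀ τ ω) (NN a p) (ell * Lx p ^ (3 / 4 : ℝ)) + (1 + ε) * Lx p := by
  refine ae_all_iff.2 fun ell => ae_all_iff.2 fun ε => ae_all_iff.2 fun a => ?_
  by_cases h1 : 0 < ell
  swap
  · exact Eventually.of_forall fun ω h => absurd h h1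
  by_cases h3 : 0 < ε
  swap
  · exact Eventually.of_forall fun ω _ h => absurd h h3
  filter_upwards [upper h2 hp hτ hσ a (ell := (ell : ℝ)) (ε := (ε : ℝ)) (by exact_mod_cast h1) (by exact_mod_cast h3)] with ω hω _ _
  exact hω

/-- `a.s. hL` for all rational parameters -/
theorem lower_all {H₀ : ℝ → ℝ} (h2 : ContDiff ℝ 2 H₀) (hp : Function.Periodic H₀ (2 * π)) {τ : ℝ} (hτ : τ ≠ 0) {σ : ℝ} (hσ : |σ| = 1) :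
    ∀ᵐ ω ∂(PP nu1), ∀ (ell h m e e1 e2 e3 : ℚ) (a : ℕ), 0 < h → h < ell → 0 < m → 0 < e → 0 < e1 → 0 < e2 → e2 ≤ 1 → 0 < e3 → (2 / e ^ 2 + ell ^ 2 / e2) * e1 ^ 2 ≤ e2 / 4 →
      ∃ p₀ : ℕ, ∀ p : ℕ, p₀ ≤ p →
        CX σ (Hx H₀ τ ω) (NN a p) ((ell + h) * Lx p ^ (3 / 4 : ℝ)) - CX σ (Hx H₀ τ ω) (NN a p) (ell * Lx p ^ (3 / 4 : ℝ)) ≤ (h * (m + e1) - e3) * Lx p →
        CX σ (Hx H₀ τ ω) (NN a p) ((ell - h) * Lx p ^ (3 / 4 : ℝ)) - CX σ (Hx H₀ τ ω) (NN a p) (ell * Lx p ^ (3 / 4 : ℝ)) ≤ (-(h * (m - e1)) - e3) * Lx p →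
        ell * m * Lx p - CX σ (Hx H₀ τ ω) (NN a p) (ell * Lx p ^ (3 / 4 : ℝ)) ≤ (1 - e2) * Lx p →
        ∀ c : ℝ × ℝ, ∃ R ∈ Icc ((2 : ℝ) ^ p) (2 ^ (p + 1)), (m - e) * Lx p ^ (1 / 4 : ℝ) ≤ σ * Mx (Hx H₀ τ ω) (NN a p) R c := by
  refine ae_all_iff.2 fun ell => ae_all_iff.2 fun h => ae_all_iff.2 fun m => ae_all_iff.2 fun e => ae_all_iff.2 fun e1 => ae_all_iff.2 fun e2 => ae_all_iff.2 fun e3 =>
    ae_all_iff.2 fun a => ?_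
  by_cases hC : 0 < h ∧ h < ell ∧ 0 < e ∧ 0 < e2 ∧ e2 ≤ 1 ∧ 0 < e3 ∧ (2 / e ^ 2 + ell ^ 2 / e2) * e1 ^ 2 ≤ e2 / 4
  swap
  · exact Eventually.of_forall fun ω a1 a2 _ a4 _ a6 a7 a8 a9 => absurd ⟨a1, a2, a4, a6, a7, a8, a9⟩ hC
  obtain ⟨a1, a2, a4, a6, a7, a8, a9⟩ := hC
  filter_upwards [lower h2 hp hτ hσ a (ell := (ell : ℝ)) (h := (h : ℝ)) (m := (m : ℝ)) (e := (e : ℝ)) (e1 := (e1 : ℝ)) (e2 := (e2 : ℝ)) (e3 := (e3 : ℝ)) (by exact_mod_cast a1)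
    (by exact_mod_cast a2) (by exact_mod_cast a4) (by exact_mod_cast a6) (by exact_mod_cast a7) (by exact_mod_cast a8) (by exact_mod_cast a9)] with ω hω _ _ _ _ _ _ _ _ _
  exact hω

/-- the bounds of the low blocks hold almost surely -/
def Low (τ : ℝ) : Prop :=
  ∀ (K : ℝ), 1 ≤ K → ∀ G : ℕ → ℝ → ℝ, (∀ p : ℕ, HB (K * 4 ^ p) (G p)) → (∀ p t, |rho (G p) t| ≤ K) → ∀ᵐ ω ∂(PP nu1), SBl Amp.T (fun p => Hx (G p) τ ω)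

/-- the bounds of the high blocks of one function -/
def High (H : ℝ → ℝ) : Prop := ∃ e : ℝ, 0 < e ∧ e ≤ 1 / 1000 ∧ SBh Amp.T e H

theorem as_law {H₀ : ℝ → ℝ} (h2 : ContDiff ℝ 2 H₀) (hp : Function.Periodic H₀ (2 * π)) {τ : ℝ} (hτ : τ ≠ 0) (hlow : Low τ) {σ : ℝ} (hσ : σ = 1 ∨ σ = -1) :
    ∀ᵐ ω ∂(PP nu1), (∀ t, 0 < Hx H₀ τ ω t + deriv (deriv (Hx H₀ τ ω)) t) → High (Hx H₀ τ ω) → Law σ (Hx H₀ τ ω) := by
  have hσ1 : |σ| = 1 := by rcases hσ with rfl | rfl <;> simp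
  obtain ⟨G, K, hK, hG, hr, hc, hd⟩ := stek h2 hp
  filter_upwards [hlow K hK G hG hr, upper_all h2 hp hτ hσ1, lower_all h2 hp hτ hσ1] with ω hω hU hL hpos hhigh
  obtain ⟨e, he, he1, hH⟩ := hhigh
  have hG2 : ∀ p, ContDiff ℝ 2 (G p) := fun p => (hG p).smooth.of_le (by norm_num)
  have hH2 := hx_cd h2 τ ω
  have hHp := hx_pd hp τ ω
  have hT : ∀ ε : ℝ, 0 < ε → ∃ a₀ : ℕ, ∀ a : ℕ, a₀ ≤ a → ∃ p₀ : ℕ, ∀ p : ℕ, p₀ ≤ p → ∀ R ∈ Icc ((2 : ℝ) ^ p) (2 ^ (p + 1)), ∀ c : ℝ × ℝ,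
      |Er idf (Hx H₀ τ ω) c R - sqrt R * Mx (Hx H₀ τ ω) (NN a p) R c| ≤ ε * (sqrt R * Lx p ^ (1 / 4 : ℝ)) := by
    intro ε hε
    refine trunc_h hH2 hHp hpos (G := fun p => Hx (G p) τ ω) (K := K) (fun p => hx_cd (hG2 p) τ ω) (fun p => hx_pd (hG p).per τ ω) ?_ ?_ t_one t_two he he1 hω hH hε
    · intro p t
      have e : Hx (G p) τ ω t - Hx H₀ τ ω t = G p t - H₀ t := by
        unfold Hx
        ring
      rw [e]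
      exact hc p t
    · intro ε hε
      obtain ⟨p₀, h⟩ := hd ε hε
      refine ⟨p₀, fun p hp' t => ?_⟩
      rw [hx_rho (hG2 p), hx_rho h2]
      have e : rho (G p) t + τ * rho (WW ω) t - (rho H₀ t + τ * rho (WW ω) t) = rho (G p) t - rho H₀ t := by ring
      rw [e]
      exact h p hp' t
  have hJ := Jc_pos hσ
  have hA := aff_pos hH2 hpos
  have hC : 0 < 6 / π ^ 2 * aff (Hx H₀ τ ω) * Jc σ := by positivity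
  have hR : ∀ ell : ℝ, 0 < ell → ∀ ε : ℝ, 0 < ε → ∃ a₀ : ℕ, ∀ a : ℕ, a₀ ≤ a → ∃ p₀ : ℕ, ∀ p : ℕ, p₀ ≤ p →
      |CX σ (Hx H₀ τ ω) (NN a p) (ell * Lx p ^ (3 / 4 : ℝ)) / Lx p - 6 / π ^ 2 * aff (Hx H₀ τ ω) * Jc σ * ell ^ (4 / 3 : ℝ)| ≤ ε :=
    fun ell hl ε hε => cx_lim hH2 hHp hpos hσ hl hε
  have hk : 4 * (6 / π ^ 2 * aff (Hx H₀ τ ω) * Jc σ / 3) ^ (3 / 4 : ℝ) = kap σ * aff (Hx H₀ τ ω) ^ (3 / 4 : ℝ) := by
    unfold kap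
    have e : 6 / π ^ 2 * aff (Hx H₀ τ ω) * Jc σ / 3 = 2 / π ^ 2 * Jc σ * aff (Hx H₀ τ ω) := by ring
    rw [e, mul_rpow (by positivity) hA.le, mul_assoc]
  have c1 := comb (E := fun R c => Er idf (Hx H₀ τ ω) c R) hσ hC hT hR hU hL
  rw [hk] at c1
  refine ⟨c1.1, ?_⟩
  rcases hσ with rfl | rfl
  · have c2 := comb (E := fun R c => ErO idf (Hx H₀ τ ω) c R) (Or.inl rfl) hC (trunc_open ⟨hH2, hHp, hpos⟩ hT) hR hU hL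
    rw [hk] at c2
    simpa only [one_mul, Es_one] using c2.2
  · simpa only [neg_mul, one_mul, Es_neg] using c1.2

end Pool.Agent.Helper22.AI
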