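import Pool.Agent.Helper22.AI.WReg

/-!
# AI-CONT: the derivatives of the random function depend continuously on the sample, for uniform convergence

The terms of level `l` are finite sums of coefficients times fixed bounded continuous functions, and the series converges absolutely in the space of bounded continuous functions, uniformly in the sample.
-/

open MeasureTheory Real Set Filter Topology

set_option autoImplicit false
set_option linter.unusedSectionVars false

namespace Pool.Agent.Helper22.AI

open Pool.Agent.Helper93.AO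

private lemma lev_iter71 (l j : ℕ) (ω : Om) (t : ℝ) : iteratedDeriv j (lev l ω) t = ∑ m ∈ Finset.range (4 * 16 ^ l),
    (((ω (l, m)).1 : ℝ) * iteratedDeriv j (e1 l) (t - th l m) + ((ω (l, m)).2 : ℝ) * iteratedDeriv j (e2 l) (t - th l m)) := by
  have h1 : ∀ m : ℕ, ContDiff ℝ j (fun t => e1 l (t - th l m)) := fun m => (e1_smooth l j).comp (contDiff_id.sub contDiff_const)
  have h2 : ∀ m : ℕ, ContDiff ℝ j (fun t => e2 l (t - th l m)) := fun m => (e2_smooth l j).comp (contDiff_id.sub contDiff_const)
  have e : lev l ω = fun t => ∑ m ∈ Finset.range (4 * 16 ^ l), (((ω (l, m)).1 : ℝ) * e1 l (t - th l m) + ((ω (l, m)).2 : ℝ) * e2 l (t - th l m)) := rfl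
  rw [e, iteratedDeriv_fun_sum fun m _ => ((contDiff_const.mul (h1 m)).add (contDiff_const.mul (h2 m))).contDiffAt]
  refine Finset.sum_congr rfl fun m _ => ?_
  rw [iteratedDeriv_fun_add (contDiff_const.mul (h1 m)).contDiffAt (contDiff_const.mul (h2 m)).contDiffAt,
    iteratedDeriv_const_mul_field, iteratedDeriv_const_mul_field, iteratedDeriv_comp_sub_const, iteratedDeriv_comp_sub_const]

variable [Amp]

theorem WW_cont_unif (j : ℕ) : Continuous fun ω : Om => UniformFun.ofFun (iteratedDeriv j (WW ω)) := by
  obtain ⟨C₀, hC₀⟩ := e_bound_all j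
  obtain ⟨C, hC, hlev⟩ := term_bound j
  have c1 : ∀ l, Continuous (iteratedDeriv j (e1 l)) := fun l => (e1_smooth l j).continuous_iteratedDeriv j le_rfl
  have c2 : ∀ l, Continuous (iteratedDeriv j (e2 l)) := fun l => (e2_smooth l j).continuous_iteratedDeriv j le_rfl
  let E1 : ℕ → ℕ → BoundedContinuousFunction ℝ ℝ := fun l m =>
    BoundedContinuousFunction.ofNormedAddCommGroup (fun t => iteratedDeriv j (e1 l) (t - th l m)) ((c1 l).comp (continuous_id.sub continuous_const)) (C₀ * 16 ^ (l * j))
      fun t => (hC₀ l j le_rfl _).1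
  let E2 : ℕ → ℕ → BoundedContinuousFunction ℝ ℝ := fun l m =>
    BoundedContinuousFunction.ofNormedAddCommGroup (fun t => iteratedDeriv j (e2 l) (t - th l m)) ((c2 l).comp (continuous_id.sub continuous_const)) (C₀ * 16 ^ (l * j))
      fun t => (hC₀ l j le_rfl _).2
  let G : ℕ → Om → BoundedContinuousFunction ℝ ℝ := fun l ω =>
    ((2 : ℝ) ^ (Amp.am l))⁻¹ • ∑ m ∈ Finset.range (4 * 16 ^ l), (((ω (l, m)).1 : ℝ) • E1 l m + ((ω (l, m)).2 : ℝ) • E2 l m)
  have hG : ∀ l ω t, G l ω t = iteratedDeriv j (lev l ω) t / 2 ^ (Amp.am l) := by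
    intro l ω t
    simp only [G, BoundedContinuousFunction.coe_smul, BoundedContinuousFunction.sum_apply, BoundedContinuousFunction.coe_add, Pi.add_apply, smul_eq_mul]
    rw [lev_iter71, div_eq_inv_mul]
    rfl
  have hGc : ∀ l, Continuous (G l) := by
    intro l
    have h : Continuous fun ω : Om => ∑ m ∈ Finset.range (4 * 16 ^ l), (((ω (l, m)).1 : ℝ) • E1 l m + ((ω (l, m)).2 : ℝ) • E2 l m) := by
      refine continuous_finsetSum _ fun m _ => ?_
      have a1 : Continuous fun ω : Om => ((ω (l, m)).1 : ℝ) := continuous_subtype_val.comp (continuous_fst.comp (continuous_apply _))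
      have a2 : Continuous fun ω : Om => ((ω (l, m)).2 : ℝ) := continuous_subtype_val.comp (continuous_snd.comp (continuous_apply _))
      exact (a1.smul continuous_const).add (a2.smul continuous_const)
    exact h.const_smul (((2 : ℝ) ^ (Amp.am l))⁻¹)
  have hGn : ∀ l ω, ‖G l ω‖ ≤ C * (1 / 2) ^ l := by
    intro l ω
    rw [BoundedContinuousFunction.norm_le (by positivity)]
    intro t
    rw [hG, Real.norm_eq_abs, abs_div, abs_of_pos (show (0 : ℝ) < 2 ^ (Amp.am l) by positivity)]
    exact hlev l j le_rfl ω t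
  have hsum : Summable fun l : ℕ => C * (1 / 2 : ℝ) ^ l := (summable_geometric_of_lt_one (by norm_num) (by norm_num)).mul_left C
  have hF : Continuous fun ω => ∑' l, G l ω := continuous_tsum hGc hsum hGn
  have hval : ∀ ω t, (∑' l, G l ω) t = iteratedDeriv j (WW ω) t := by
    intro ω t
    have hs : Summable fun l => G l ω := Summable.of_norm_bounded hsum fun l => hGn l ω
    have h1 := (BoundedContinuousFunction.evalCLM ℝ t).map_tsum hs
    rw [(WW_deriv_all j ω t).2]
    refine h1.trans (tsum_congr fun l => hG l ω t)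
  have h2 := BoundedContinuousFunction.isInducing_coeFn.continuous.comp hF
  refine h2.congr fun ω => ?_
  show UniformFun.ofFun (⇑(∑' l, G l ω)) = UniformFun.ofFun (iteratedDeriv j (WW ω))
  congr 1
  funext t
  exact hval ω t

end Pool.Agent.Helper22.AI
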