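import Pool.Agent.Helper93.AO.Defs

/-!
# AI (MP_fb29e9_nt, AlmostEveryOval v5, k up to infinity): the random function of class `C^∞`

The same as `Pool.Agent.Helper93.AO` with the amplitudes `2^(-am l)` instead of `2^(-21 l)`, `am` superlinear. `T p` is the level which is used at the scale `2^p`:
`2 am (T p) ≤ p`. The frequencies up to `2^(T p)` are treated with the random function `WW`, those above with a random trigonometric series.
-/

open MeasureTheory Real Set Filter Topology

set_option autoImplicit false

namespace Pool.Agent.Helper22.AI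

open Pool.Agent.Helper93.AO

/-- the exponents of the amplitudes and the level for each scale -/
class Amp where
  /-- the amplitude of the level `l` is `2^(-am l)` -/
  am : ℕ → ℕ
  /-- the level at the scale `2^p` -/
  T : ℕ → ℕ
  /-- lower bound -/
  low : ∀ l : ℕ, 21 * l ≤ am l
  /-- the exponents are superlinear -/
  sup : ∀ j : ℕ, ∃ C : ℕ, ∀ l : ℕ, j * l ≤ am l + C
  /-- the amplitude of the level `T p` is at least `2^(-p/2)` -/
  lvl : ∀ p : ℕ, 2 * am (T p) ≤ p
  /-- the level is at least the square root of `p` -/
  big : ∀ᶠ p : ℕ in atTop, p ≤ T p ^ 2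

/-- the random function -/
noncomputable def WW [Amp] (ω : Om) (t : ℝ) : ℝ := ∑' l : ℕ, lev l ω t / 2 ^ (Amp.am l)

/-- the random support function -/
noncomputable def Hx [Amp] (H₀ : ℝ → ℝ) (τ : ℝ) (ω : Om) (t : ℝ) : ℝ := H₀ t + τ * WW ω t

end Pool.Agent.Helper22.AI
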