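import Pool.Agent.Helper22.AI.Ae4
import Pool.Agent.Helper99.EY.Unif2

/-!
# AI: the laws, almost surely, with the bounds of the low blocks proved
-/

open MeasureTheory Set Real Filter

set_option autoImplicit false

namespace Pool.Agent.Helper22.AI

open Pool.Agent.Helper93.AO
open Pool.Agent.Helper93.EX (Law Law4 nu1 nu1_rapid)
open Pool.Agent.Helper99.EY (SBl SBh as_unif_l)

variable [Amp]

theorem low_all {τ : ℝ} (hτ : τ ≠ 0) : Low τ := fun _ hK _ hG hr => as_unif_l nu1_rapid hτ hK hG hr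

theorem as_law_h {H₀ : ℝ → ℝ} (h2 : ContDiff ℝ 2 H₀) (hp : Function.Periodic H₀ (2 * π)) {τ : ℝ} (hτ : τ ≠ 0) {σ : ℝ} (hσ : σ = 1 ∨ σ = -1)
    {e : ℝ} (he : 0 < e) (he1 : e ≤ 1 / 1000) :
    ∀ᵐ ω ∂(PP nu1), SBh Amp.T e (Hx H₀ τ ω) → (∀ t, 0 < Hx H₀ τ ω t + deriv (deriv (Hx H₀ τ ω)) t) → Law σ (Hx H₀ τ ω) := by
  filter_upwards [as_law h2 hp hτ (low_all hτ) hσ] with ω hω h1 h3
  exact hω h3 ⟨e, he, he1, h1⟩

theorem as_law4_h {H₀ : ℝ → ℝ} (h2 : ContDiff ℝ 2 H₀) (hp : Function.Periodic H₀ (2 * π)) {τ : ℝ} (hτ : τ ≠ 0) {σ : ℝ} (hσ : σ = 1 ∨ σ = -1)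
    {e : ℝ} (he : 0 < e) (he1 : e ≤ 1 / 1000) :
    ∀ᵐ ω ∂(PP nu1), SBh Amp.T e (Hx H₀ τ ω) → (∀ t, 0 < Hx H₀ τ ω t + deriv (deriv (Hx H₀ τ ω)) t) → Law4 σ (Hx H₀ τ ω) := by
  filter_upwards [as_law4 h2 hp hτ (low_all hτ) hσ] with ω hω h1 h3
  exact hω h3 ⟨e, he, he1, h1⟩

end Pool.Agent.Helper22.AI
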