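import Pool.Agent.Helper22.AI.Term
import Pool.Agent.Helper93.AO.Ray
import Pool.Agent.Helper93.AO.One

/-!
# AI-LOW: the low frequencies at one point of the parameter space

`N = 2^n`, `n ≤ l = T p`, so `2^(am l) ≤ 2^(p/2)` and `16^l ≥ C N²`. `ray_sum`; for the class `j`: if `2^j √p > N` then `‖sum‖ ≤ M #cls ≤ C M N²/2^j`, the first entry of the minimum.
If `2^j √p ≤ N`: `one_level` with `B = cls N j`, `J k = idx l (pos f α k)`, `n₁ = 2^j`, `R₁ = C N²/4^j`, `s = C' N √p`: `s²/(16 (R₁ (n₁ M)² + n₁ M s)) ≥ C'² p/(16 (C M² + M C')) ≥ (D + 1) p`; mean as in AO-HIGH: `|pu| ≥ nr/4`,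
`a k ≥ c 2^(e p)`, `δ ≤ 2^(-3p)`. The union over `j ≤ n` costs a factor `n + 1`. The terms `8 M #B δ ≤ 1 ≤` the minimum (`j ≤ n`, `p ≥ 1`).
-/

open MeasureTheory Real Set Filter Topology

set_option autoImplicit false
set_option linter.unusedSectionVars false

namespace Pool.Agent.Helper22.AI

open Pool.Agent.Helper93.AO

variable [Amp]

open Pool.Agent.Helper22.AE (ee rho)
open Pool.Agent.Helper22.AC (ga)
open Pool.Agent.Helper92.GC (dt sqa)
open Pool.Agent.Helper22.LP (Fr fk fdet nr tr hom LS wr Hf)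
open Pool.Agent.Helper92.LA (Fb)

private lemma nr_cos80 (v : ℝ × ℝ) (θ : ℝ) : pu θ v = nr v * cos (tr v - θ) := by
  have a1 : nr v * cos (tr v) = v.1 := Complex.norm_mul_cos_arg (Helper22.LP.cp v)
  have a2 : nr v * sin (tr v) = v.2 := Complex.norm_mul_sin_arg (Helper22.LP.cp v)
  unfold pu
  rw [cos_sub]
  calc v.1 * cos θ + v.2 * sin θ = (nr v * cos (tr v)) * cos θ + (nr v * sin (tr v)) * sin θ := by rw [a1, a2]
    _ = _ := by ring

private lemma pu_low80 {l : ℕ} (hl : 1 ≤ l) (v : ℝ × ℝ) {α : ℝ} (hα : |α| ≤ 1) :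
    nr v / 4 ≤ |pu (th l (idx l (tr v + α))) v| := by
  have hnr : 0 ≤ nr v := norm_nonneg _
  rw [nr_cos80]
  set θ := th l (idx l (tr v + α)) with hθ
  have h1 := idx_near l (tr v + α)
  rw [← hθ] at h1
  set s := sin ((tr v + α - θ) / 2) with hs
  have h16 : (16 : ℝ) ≤ 16 ^ l := by
    calc (16 : ℝ) = 16 ^ 1 := (pow_one _).symm
      _ ≤ 16 ^ l := pow_le_pow_right₀ (by norm_num) hl
  have h2 : |s| ≤ 1 / 40 := by
    rw [abs_mul, abs_of_pos (by positivity : (0 : ℝ) < 16 ^ l)] at h1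
    have : 16 * |s| ≤ 16 ^ l * |s| := mul_le_mul_of_nonneg_right h16 (abs_nonneg _)
    linarith
  have e1 : tr v - θ = (tr v + α - θ) - α := by ring
  have e2 : tr v + α - θ = 2 * ((tr v + α - θ) / 2) := by ring
  have hcos : cos (tr v + α - θ) = 1 - 2 * s ^ 2 := by
    rw [e2, cos_two_mul, cos_sq']
    ring
  have hsin : |sin (tr v + α - θ)| ≤ 1 / 20 := by
    rw [e2, sin_two_mul, abs_mul, abs_mul, abs_two]
    have := abs_cos_le_one ((tr v + α - θ) / 2)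
    calc 2 * |s| * |cos ((tr v + α - θ) / 2)| ≤ 2 * |s| * 1 := mul_le_mul_of_nonneg_left this (by positivity)
      _ ≤ 1 / 20 := by linarith
  have hα2 : α ^ 2 ≤ 1 := by
    rw [← sq_abs]
    exact pow_le_one₀ (abs_nonneg _) hα
  have hca : 1 / 2 ≤ cos α := by
    have := one_sub_sq_div_two_le_cos (x := α)
    linarith
  have hca1 : cos α ≤ 1 := cos_le_one α
  have hs2 : s ^ 2 ≤ 1 / 1600 := by
    rw [← sq_abs]
    calc |s| ^ 2 ≤ (1 / 40) ^ 2 := pow_le_pow_left₀ (abs_nonneg _) h2 2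
      _ = 1 / 1600 := by norm_num
  have hsa : |sin (tr v + α - θ) * sin α| ≤ 1 / 20 := by
    rw [abs_mul]
    calc |sin (tr v + α - θ)| * |sin α| ≤ 1 / 20 * 1 := mul_le_mul hsin (abs_sin_le_one α) (abs_nonneg _) (by norm_num)
      _ = 1 / 20 := by norm_num
  have hc : 1 / 4 ≤ cos (tr v - θ) := by
    rw [e1, cos_sub, hcos]
    have h3 := (abs_le.1 hsa).1
    have h4 : (1 - 1 / 800) * (1 / 2) ≤ (1 - 2 * s ^ 2) * cos α :=
      mul_le_mul (by linarith) hca (by norm_num) (by linarith)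
    linarith
  rw [abs_mul, abs_of_nonneg hnr]
  have h5 : 1 / 4 ≤ |cos (tr v - θ)| := hc.trans (le_abs_self _)
  calc nr v / 4 = nr v * (1 / 4) := by ring
    _ ≤ _ := mul_le_mul_of_nonneg_left h5 hnr

private lemma two_pow80 (x : ℝ) : ∃ c : ℕ, x ≤ 2 ^ c := by
  obtain ⟨c, hc⟩ := pow_unbounded_of_one_lt x (by norm_num : (1 : ℝ) < 2)
  exact ⟨c, hc.le⟩

/-- decay of the characteristic function at the frequencies in question -/
private lemma ch80 {ν : Measure J1} {Cν : ℝ} {c₂ c₃ : ℕ} (hch : ∀ u : ℝ, ‖ch ν u‖ ≤ Cν / (1 + |u|) ^ 400)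
    (hc₃ : Cν ≤ 2 ^ c₃) {p u : ℕ} (hu : p ≤ 100 * u) (hp : c₃ + 400 * c₂ ≤ p) {a : ℝ} (ha : (2 : ℝ) ^ u ≤ |a| * 2 ^ c₂) :
    ‖ch ν a‖ ≤ 1 / 2 ^ (3 * p) := by
  refine (hch a).trans ?_
  have hA : (0 : ℝ) < |a| := by
    by_contra h
    have h1 : |a| * 2 ^ c₂ ≤ 0 := mul_nonpos_of_nonpos_of_nonneg (not_lt.1 h) (by positivity)
    have h2 : (0 : ℝ) < 2 ^ u := by positivity
    linarith
  have h1 : (2 : ℝ) ^ (400 * u) ≤ (1 + |a|) ^ 400 * 2 ^ (400 * c₂) := by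
    calc (2 : ℝ) ^ (400 * u) = ((2 : ℝ) ^ u) ^ 400 := by rw [mul_comm, pow_mul]
      _ ≤ (|a| * 2 ^ c₂) ^ 400 := pow_le_pow_left₀ (by positivity) ha 400
      _ = |a| ^ 400 * 2 ^ (400 * c₂) := by rw [mul_pow, mul_comm 400 c₂, pow_mul]
      _ ≤ _ := mul_le_mul_of_nonneg_right (pow_le_pow_left₀ hA.le (by linarith) 400) (by positivity)
  rw [div_le_div_iff₀ (by positivity) (by positivity), one_mul]
  have h2 : Cν * 2 ^ (3 * p) ≤ 2 ^ c₃ * 2 ^ (3 * p) := mul_le_mul_of_nonneg_right hc₃ (by positivity)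
  have h3 : (2 : ℝ) ^ c₃ * 2 ^ (3 * p) * 2 ^ (400 * c₂) ≤ (1 + |a|) ^ 400 * 2 ^ (400 * c₂) := by
    refine le_trans ?_ h1
    rw [← pow_add, ← pow_add]
    exact pow_le_pow_right₀ (by norm_num) (by omega)
  exact h2.trans (le_of_mul_le_mul_right h3 (by positivity))

theorem low_pt {ν : Measure J1} [IsProbabilityMeasure ν] (hν : Rapid ν) {τ : ℝ} (hτ : τ ≠ 0) (K : ℝ) {M : ℝ} (hM : 1 ≤ M) {D : ℝ} (hD : 0 < D) :
    ∃ (C : ℝ) (p₀ : ℕ), 1 ≤ C ∧ ∀ H₀ : ℝ → ℝ, ContDiff ℝ 3 H₀ → (∀ t, |rho H₀ t| ≤ K) → ∀ p : ℕ, p₀ ≤ p → ∀ n : ℕ, n ≤ Amp.T p →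
      ∀ f : Fr, Fb M f → ∀ (α r : ℝ) (c : ℝ × ℝ) (i : ℕ), |α| ≤ 1 → 2 ^ p / 4 ≤ r → r ≤ 16 * 2 ^ p → i = 1 ∨ i = 2 →
        (PP ν).real {ω | C * gl n p ≤ ‖SS (Hx H₀ τ ω) f α r c i (2 ^ n)‖} ≤ (2 : ℝ) ^ (-(D * p)) := by
  classical
  obtain ⟨Bb, hBb, hbd⟩ := tm_bd τ K hM
  obtain ⟨Cc, hCc, hcard⟩ := ray_card
  obtain ⟨Ca, hCa, harc⟩ := ray_arc hM
  obtain ⟨Cr, hCr, harcs⟩ := ray_arcs
  obtain ⟨Cs, hCs, hsec⟩ := sec_low hM
  obtain ⟨Cν, hch⟩ := hν 400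
  obtain ⟨c₁, hc₁⟩ := two_pow80 Ca
  obtain ⟨c₂, hc₂⟩ := two_pow80 (16 * Cs / |τ|)
  obtain ⟨c₃, hc₃⟩ := two_pow80 Cν
  obtain ⟨c₄, hc₄⟩ := two_pow80 (8 * Bb * Cc)
  have hτ0 : 0 < |τ| := abs_pos.2 hτ
  have hCs0 : 0 < Cs := by linarith
  have hBb0 : 0 < Bb := by linarith
  have hCc0 : 0 < Cc := by linarith
  set C' : ℝ := 16 * (D + 2) * (Cr * Bb ^ 2 + Bb) + 1 with hC'
  have hC'1 : 1 ≤ C' := by
    have : 0 ≤ 16 * (D + 2) * (Cr * Bb ^ 2 + Bb) := by positivity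
    linarith
  have hC'2 : 16 * (D + 2) * (Cr * Bb ^ 2 + Bb * C') ≤ C' ^ 2 := by
    have h1 : 16 * (D + 2) * (Cr * Bb ^ 2 + Bb * C') ≤ C' * (16 * (D + 2) * (Cr * Bb ^ 2 + Bb)) := by
      have h2 : Cr * Bb ^ 2 ≤ C' * (Cr * Bb ^ 2) := le_mul_of_one_le_left (by positivity) hC'1
      have h3 : Cr * Bb ^ 2 + Bb * C' ≤ C' * (Cr * Bb ^ 2 + Bb) := by linarith
      calc 16 * (D + 2) * (Cr * Bb ^ 2 + Bb * C') ≤ 16 * (D + 2) * (C' * (Cr * Bb ^ 2 + Bb)) :=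
            mul_le_mul_of_nonneg_left h3 (by positivity)
        _ = _ := by ring
    have h4 : C' * (16 * (D + 2) * (Cr * Bb ^ 2 + Bb)) ≤ C' * C' :=
      mul_le_mul_of_nonneg_left (by linarith) (by linarith)
    calc _ ≤ _ := h1
      _ ≤ _ := h4
      _ = C' ^ 2 := by ring
  obtain ⟨pb, hpb⟩ := eventually_atTop.1 Amp.big
  refine ⟨Bb * Cc + 1 + (8 * C' + 1), pb + (c₁ + 1) ^ 2 + 28 + (c₃ + 400 * c₂) + c₄ + 22,
    by have : 0 < Bb * Cc := by positivity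
       linarith, ?_⟩
  intro H₀ h3 hK p hp n hn f hf α r c i hα hr1 hr2 hi
  set CC : ℝ := Bb * Cc + 1 + (8 * C' + 1) with hCC
  have hBC : 0 < Bb * Cc := by positivity
  obtain ⟨l, hl⟩ : ∃ l : ℕ, l = Amp.T p := ⟨_, rfl⟩
  have hl1 : 2 * Amp.am l ≤ p := by
    rw [hl]
    exact Amp.lvl p
  have hl2 : 21 * l ≤ Amp.am l := Amp.low l
  have hnl : n ≤ l := by
    rw [hl]
    exact hn
  have hn50 : 42 * n ≤ p := by omega
  have hlc : c₁ + 1 ≤ l := by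
    have h1 : (c₁ + 1) ^ 2 ≤ l ^ 2 := by
      have h2 := hpb p (by omega)
      rw [← hl] at h2
      omega
    exact (Nat.pow_le_pow_iff_left (by norm_num)).1 h1
  have hlpos : 1 ≤ l := by omega
  have hN1 : 1 ≤ 2 ^ n := Nat.one_le_two_pow
  have hNpos : (0 : ℝ) < 2 ^ n := by positivity
  have hNr : ((2 ^ n : ℕ) : ℝ) = 2 ^ n := by push_cast; rfl
  have hN2 : ((2 : ℝ) ^ n) ^ 2 = 4 ^ n := by
    rw [← pow_mul, mul_comm, pow_mul]
    norm_num
  have hN1r : (1 : ℝ) ≤ 2 ^ n := one_le_pow₀ (by norm_num)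
  have hp1 : 1 ≤ p := by omega
  have hpr : (1 : ℝ) ≤ p := by exact_mod_cast hp1
  have hsp1 : 1 ≤ sqrt p := by
    rw [Real.one_le_sqrt]
    exact hpr
  have hspsq : sqrt p ^ 2 = p := Real.sq_sqrt (by positivity)
  -- the level is high enough
  have hlev : Ca * ((2 ^ n : ℕ) : ℝ) ^ 2 ≤ 16 ^ l := by
    rw [hNr]
    calc Ca * ((2 : ℝ) ^ n) ^ 2 ≤ 2 ^ c₁ * ((2 : ℝ) ^ n) ^ 2 := mul_le_mul_of_nonneg_right hc₁ (by positivity)
      _ = 2 ^ (c₁ + n * 2) := by rw [pow_add, pow_mul]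
      _ ≤ 2 ^ (4 * l) := pow_le_pow_right₀ (by norm_num) (by omega)
      _ = 16 ^ l := by
        rw [pow_mul]
        norm_num
  -- the terms
  set T : ℤ × ℤ → Om → ℂ := fun k ω => Tm (Hx H₀ τ ω) f α r c i (2 ^ n) k with hT
  have hTb : ∀ k ∈ sqa (2 ^ n), ∀ ω, ‖T k ω‖ ≤ Bb := fun k hk ω => hbd H₀ h3 hK f hf ω α r c i (2 ^ n) hi hN1 k hk
  have hclss : ∀ j, cls (2 ^ n) j ⊆ sqa (2 ^ n) := fun j => Finset.filter_subset _ _
  -- one class
  have hone : ∀ j, (PP ν).real {ω | CC * min ((4 : ℝ) ^ n / 2 ^ j) (2 ^ n * sqrt p) ≤ ‖∑ k ∈ cls (2 ^ n) j, T k ω‖} ≤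
      32 * exp (-((D + 2) * p)) := by
    intro j
    have hcj := hcard (2 ^ n) j hN1
    rw [hNr, hN2] at hcj
    have h4j : (0 : ℝ) < 4 ^ n / 2 ^ j := by positivity
    rcases le_or_gt ((4 : ℝ) ^ n / 2 ^ j) (2 ^ n * sqrt p) with hA | hB
    · -- the trivial bound
      rw [min_eq_left hA]
      have he : {ω | CC * ((4 : ℝ) ^ n / 2 ^ j) ≤ ‖∑ k ∈ cls (2 ^ n) j, T k ω‖} = ∅ := by
        ext ω
        simp only [Set.mem_ofPred_eq, Set.mem_empty_iff_false, iff_false, not_le]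
        calc ‖∑ k ∈ cls (2 ^ n) j, T k ω‖ ≤ ∑ k ∈ cls (2 ^ n) j, ‖T k ω‖ := norm_sum_le _ _
          _ ≤ ∑ _k ∈ cls (2 ^ n) j, Bb := Finset.sum_le_sum fun k hk => hTb k (hclss j hk) ω
          _ = ((cls (2 ^ n) j).card : ℝ) * Bb := by rw [Finset.sum_const, nsmul_eq_mul]
          _ ≤ Cc * (4 ^ n / 2 ^ j) * Bb := mul_le_mul_of_nonneg_right hcj hBb0.le
          _ = (Bb * Cc) * (4 ^ n / 2 ^ j) := by ring
          _ < CC * (4 ^ n / 2 ^ j) := mul_lt_mul_of_pos_right (by rw [hCC]; linarith) h4j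
      rw [he, measureReal_empty]
      positivity
    · rw [min_eq_right hB.le]
      -- the resampled level
      set J : ℤ × ℤ → ℕ := fun k => idx l (pos f α k) with hJ
      have hrep : Rep (cls (2 ^ n) j) T l J (fun k => τ * r / 2 ^ (Amp.am l) * pu (th l (J k)) (fk f k))
          (fun k => τ * r * 16 ^ l / 2 ^ (Amp.am l) * pv (th l (J k)) (fk f k)) := by
        refine tm_rep h3 τ f α r c i (2 ^ n) l (fun k _ => idx_lt l _) (fun k _ => ?_)
        exact (idx_near l (pos f α k)).trans (by norm_num)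
      have hδ : ∀ k ∈ cls (2 ^ n) j, ‖ch ν ((fun k => τ * r / 2 ^ (Amp.am l) * pu (th l (J k)) (fk f k)) k)‖ ≤ 1 / 2 ^ (3 * p) := by
        intro k hk
        refine ch80 (u := p - Amp.am l) (c₂ := c₂) hch hc₃ (by omega) (by omega) ?_
        obtain ⟨b1, -⟩ := hsec f hf (2 ^ n) hN1 k (hclss j hk)
        rw [hNr] at b1
        have h5 := pu_low80 hlpos (fk f k) hα
        have h6 : nr (fk f k) / 4 ≤ |pu (th l (J k)) (fk f k)| := h5
        have h7 : 1 / Cs ≤ nr (fk f k) := by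
          rw [div_le_iff₀ hCs0]
          linarith
        have hr0 : 0 < r := lt_of_lt_of_le (by positivity) hr1
        have h8 : |τ * r / 2 ^ (Amp.am l) * pu (th l (J k)) (fk f k)| = |τ| * r / 2 ^ (Amp.am l) * |pu (th l (J k)) (fk f k)| := by
          rw [abs_mul, abs_div, abs_mul, abs_of_pos hr0, abs_of_pos (by positivity : (0 : ℝ) < 2 ^ (Amp.am l))]
        rw [h8]
        have h9 : |τ| * (2 ^ p / 4) / 2 ^ (Amp.am l) * (1 / Cs / 4) ≤ |τ| * r / 2 ^ (Amp.am l) * |pu (th l (J k)) (fk f k)| := by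
          refine mul_le_mul ?_ ?_ (by positivity) (by positivity)
          · exact div_le_div_of_nonneg_right (mul_le_mul_of_nonneg_left hr1 hτ0.le) (by positivity)
          · linarith
        have h10 : (2 : ℝ) ^ (p - Amp.am l) = 2 ^ p / 2 ^ (Amp.am l) := by
          rw [pow_sub₀ _ (by norm_num) (by omega), div_eq_mul_inv]
        rw [h10]
        have h11 : (1 : ℝ) ≤ |τ| / (16 * Cs) * 2 ^ c₂ := by
          have h12 : |τ| / (16 * Cs) * (16 * Cs / |τ|) = 1 := by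
            field_simp
          calc (1 : ℝ) = |τ| / (16 * Cs) * (16 * Cs / |τ|) := h12.symm
            _ ≤ _ := mul_le_mul_of_nonneg_left hc₂ (by positivity)
        calc (2 : ℝ) ^ p / 2 ^ (Amp.am l) = 2 ^ p / 2 ^ (Amp.am l) * 1 := (mul_one _).symm
          _ ≤ 2 ^ p / 2 ^ (Amp.am l) * (|τ| / (16 * Cs) * 2 ^ c₂) := mul_le_mul_of_nonneg_left h11 (by positivity)
          _ = |τ| * (2 ^ p / 4) / 2 ^ (Amp.am l) * (1 / Cs / 4) * 2 ^ c₂ := by
            field_simp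
            ring
          _ ≤ _ := mul_le_mul_of_nonneg_right h9 (by positivity)
      have hn₁ : ∀ m, (((cls (2 ^ n) j).filter fun k => J k = m).card : ℝ) ≤ (2 : ℝ) ^ j := fun m =>
        harc f hf (2 ^ n) l j m hN1 hlev α
      have hfd : fdet f ≠ 0 := by
        intro h
        have := hf.det
        rw [h, abs_zero, mul_zero] at this
        linarith
      have hR₁ : (((cls (2 ^ n) j).image J).card : ℝ) ≤ Cr * (4 ^ n / 4 ^ j) := by
        have := harcs f hfd (2 ^ n) l j hN1 α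
        rw [hNr, hN2] at this
        exact this
      have hs : 0 < C' * (2 ^ n * sqrt p) := by positivity
      have key := one_level (ν := ν) hrep (fun k _ => tm_meas h3 τ f α r c i (2 ^ n) k) hBb0
        (fun k hk ω => hTb k (hclss j hk) ω) hδ (by positivity : (0 : ℝ) < 2 ^ j) hn₁ hR₁ hs
      have hsub : {ω | CC * (2 ^ n * sqrt p) ≤ ‖∑ k ∈ cls (2 ^ n) j, T k ω‖} ⊆
          {ω | 8 * (Bb * ((cls (2 ^ n) j).card : ℝ) * (1 / 2 ^ (3 * p)) + C' * (2 ^ n * sqrt p)) ≤ ‖∑ k ∈ cls (2 ^ n) j, T k ω‖} := by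
        intro ω hω
        simp only [Set.mem_ofPred_eq] at hω ⊢
        refine le_trans ?_ hω
        have hcj2 : ((cls (2 ^ n) j).card : ℝ) ≤ Cc * 4 ^ n := by
          refine hcj.trans (mul_le_mul_of_nonneg_left ?_ hCc0.le)
          exact div_le_self (by positivity) (one_le_pow₀ (by norm_num))
        have hsm : 8 * (Bb * ((cls (2 ^ n) j).card : ℝ) * (1 / 2 ^ (3 * p))) ≤ 1 := by
          have h12 : 8 * (Bb * ((cls (2 ^ n) j).card : ℝ)) ≤ 2 ^ (3 * p) := by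
            calc 8 * (Bb * ((cls (2 ^ n) j).card : ℝ)) ≤ 8 * (Bb * (Cc * 4 ^ n)) := by gcongr
              _ = (8 * Bb * Cc) * 4 ^ n := by ring
              _ ≤ 2 ^ c₄ * 4 ^ n := mul_le_mul_of_nonneg_right hc₄ (by positivity)
              _ = 2 ^ (c₄ + n * 2) := by rw [pow_add, pow_mul, hN2]
              _ ≤ 2 ^ (3 * p) := pow_le_pow_right₀ (by norm_num) (by omega)
          rw [← mul_assoc, mul_one_div, div_le_one (by positivity)]
          exact h12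
        have hNs : 1 ≤ (2 : ℝ) ^ n * sqrt p := by
          calc (1 : ℝ) = 1 * 1 := (one_mul _).symm
            _ ≤ _ := mul_le_mul hN1r hsp1 (by norm_num) (by positivity)
        have h13 : 0 ≤ (Bb * Cc + 1) * (2 ^ n * sqrt p) := by positivity
        have h14 : CC * (2 ^ n * sqrt p) = (Bb * Cc + 1) * (2 ^ n * sqrt p) + 8 * (C' * (2 ^ n * sqrt p)) + 2 ^ n * sqrt p := by
          rw [hCC]
          ring
        rw [h14, mul_add]
        linarith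
      refine (measureReal_mono hsub (measure_ne_top _ _)).trans (key.trans ?_)
      refine mul_le_mul_of_nonneg_left (exp_le_exp.2 (neg_le_neg ?_)) (by norm_num)
      -- the exponent
      have h2j : (2 : ℝ) ^ j * sqrt p < 2 ^ n := by
        have h15 : (4 : ℝ) ^ n = 2 ^ n * 2 ^ n := by
          rw [← mul_pow]
          norm_num
        rw [lt_div_iff₀ (by positivity), h15] at hB
        have h16 : (2 : ℝ) ^ n * (2 ^ j * sqrt p) < 2 ^ n * 2 ^ n := by linarith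
        exact lt_of_mul_lt_mul_left h16 hNpos.le
      rw [le_div_iff₀ (by positivity)]
      have h17 : Cr * (4 ^ n / 4 ^ j) * ((2 : ℝ) ^ j * Bb) ^ 2 = Cr * Bb ^ 2 * (2 ^ n) ^ 2 := by
        have h18 : ((2 : ℝ) ^ j) ^ 2 = 4 ^ j := by
          rw [← pow_mul, mul_comm, pow_mul]
          norm_num
        rw [mul_pow, h18, hN2]
        field_simp
      have h19 : (2 : ℝ) ^ j * Bb * (C' * (2 ^ n * sqrt p)) ≤ Bb * C' * (2 ^ n) ^ 2 := by
        calc (2 : ℝ) ^ j * Bb * (C' * (2 ^ n * sqrt p)) = Bb * C' * 2 ^ n * (2 ^ j * sqrt p) := by ring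
          _ ≤ Bb * C' * 2 ^ n * 2 ^ n := mul_le_mul_of_nonneg_left h2j.le (by positivity)
          _ = _ := by ring
      rw [h17]
      calc (D + 2) * p * (16 * (Cr * Bb ^ 2 * (2 ^ n) ^ 2 + 2 ^ j * Bb * (C' * (2 ^ n * sqrt p))))
          ≤ (D + 2) * p * (16 * (Cr * Bb ^ 2 * (2 ^ n) ^ 2 + Bb * C' * (2 ^ n) ^ 2)) := by gcongr
        _ = (16 * (D + 2) * (Cr * Bb ^ 2 + Bb * C')) * ((2 ^ n) ^ 2 * p) := by ring
        _ ≤ C' ^ 2 * ((2 ^ n) ^ 2 * p) := mul_le_mul_of_nonneg_right hC'2 (by positivity)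
        _ = (C' * (2 ^ n * sqrt p)) ^ 2 := by
          rw [mul_pow, mul_pow, hspsq]
  -- all classes
  have hsub : {ω | CC * gl n p ≤ ‖SS (Hx H₀ τ ω) f α r c i (2 ^ n)‖} ⊆
      ⋃ j ∈ Finset.range (n + 1), {ω | CC * min ((4 : ℝ) ^ n / 2 ^ j) (2 ^ n * sqrt p) ≤ ‖∑ k ∈ cls (2 ^ n) j, T k ω‖} := by
    intro ω hω
    simp only [Set.mem_ofPred_eq] at hω
    by_contra hcon
    simp only [Set.mem_iUnion, Set.mem_ofPred_eq, not_exists, not_le] at hcon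
    have h7 : SS (Hx H₀ τ ω) f α r c i (2 ^ n) = ∑ j ∈ Finset.range (n + 1), ∑ k ∈ cls (2 ^ n) j, T k ω := by
      unfold SS
      exact ray_sum n fun k => Tm (Hx H₀ τ ω) f α r c i (2 ^ n) k
    have h8 : ‖SS (Hx H₀ τ ω) f α r c i (2 ^ n)‖ < CC * gl n p := by
      rw [h7, gl, Finset.mul_sum]
      calc ‖∑ j ∈ Finset.range (n + 1), ∑ k ∈ cls (2 ^ n) j, T k ω‖
          ≤ ∑ j ∈ Finset.range (n + 1), ‖∑ k ∈ cls (2 ^ n) j, T k ω‖ := norm_sum_le _ _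
        _ < ∑ j ∈ Finset.range (n + 1), CC * min ((4 : ℝ) ^ n / 2 ^ j) (2 ^ n * sqrt p) := by
            apply Finset.sum_lt_sum_of_nonempty
            · exact ⟨0, by simp⟩
            · intro j hj
              exact hcon j hj
    exact absurd hω (not_le.2 h8)
  refine (measureReal_mono hsub (measure_ne_top _ _)).trans ((measureReal_biUnion_finset_le _ _).trans ?_)
  refine (Finset.sum_le_sum fun j _ => hone j).trans ?_
  rw [Finset.sum_const, Finset.card_range, nsmul_eq_mul]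
  have hnn : ((n + 1 : ℕ) : ℝ) ≤ 2 ^ p := by
    have h20 : n + 1 ≤ 2 ^ n := Nat.lt_two_pow_self
    have h21 : 2 ^ n ≤ 2 ^ p := Nat.pow_le_pow_right (by norm_num) (by omega)
    exact_mod_cast h20.trans h21
  have h32 : (32 : ℝ) ≤ 2 ^ p := by
    calc (32 : ℝ) = 2 ^ 5 := by norm_num
      _ ≤ 2 ^ p := pow_le_pow_right₀ (by norm_num) (by omega)
  have hex : exp (-((D + 2) * p)) ≤ (2 : ℝ) ^ (-((D + 2) * p)) := by
    rw [← Real.exp_log (by norm_num : (0 : ℝ) < 2), ← Real.exp_mul, Real.exp_log (by norm_num : (0 : ℝ) < 2), exp_le_exp]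
    have hlog : Real.log 2 ≤ 1 := by
      have := Real.log_two_lt_d9
      linarith
    have : 0 ≤ (D + 2) * (p : ℝ) := by positivity
    nlinarith
  calc ((n + 1 : ℕ) : ℝ) * (32 * exp (-((D + 2) * p))) ≤ 2 ^ p * (2 ^ p * (2 : ℝ) ^ (-((D + 2) * p))) := by
        gcongr
    _ = (2 : ℝ) ^ (-(D * p)) := by
      rw [← Real.rpow_natCast 2 p, ← Real.rpow_add (by norm_num), ← Real.rpow_add (by norm_num)]
      congr 1
      ring

end Pool.Agent.Helper22.AI
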