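import Pool.Agent.Helper22.AI.Upper

/-!
# EX: the lower bound for one centre
-/

open MeasureTheory Set Real

set_option autoImplicit false
set_option linter.unusedSectionVars false

namespace Pool.Agent.Helper22.AI

open Pool.Agent.Helper93.EX

variable [Amp]

open Pool.Agent.Helper93.AO
open Pool.Agent.Helper22.AE (rho nk tk box cz)

theorem low_tail {κ : Type} [Fintype κ] [DecidableEq κ] {al : κ → ℝ} {f : κ → ℝ → ℝ} (hf : ∀ k, Continuous (f k)) (hper : ∀ k, Function.Periodic (f k) 1)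
    (hb : ∀ k x, |f k x| ≤ 1) {L : ℝ} (hL : ∀ k x t, |f k (x + t) - f k x| ≤ L * |t|) {A : ℝ} (hA : ∀ k, |al k| ≤ A) {B : ℝ} (hB : ∑ k, |al k| ≤ B) (hA0 : 0 ≤ A) (hL0 : 0 ≤ L)
    {lam mu m : ℝ} (hlam : 0 ≤ lam) (hmu : 0 < mu) {c : κ → ℕ × ℕ} (hc : Function.Injective c) {s s' u w : κ → ℝ} {a e : ℝ} (ha : 1 < a) {n : ℕ} (hn : 0 < n) {Rt : ℕ → ℝ}
    (h1 : ∀ i < n, ∀ k, a ≤ |Rt i * s k|) (h2 : ∀ i < n, ∀ j < n, i ≠ j → ∀ k, a ≤ |Rt j * s k - Rt i * s k|)
    (h3 : ∀ i < n, ∀ j < n, ∀ k, |Rt j * s k - Rt i * s k| / |Rt i * s k| ≤ e) (he : 0 ≤ e) {δ : ℝ} (hδ0 : 0 < δ) (hδ1 : δ ≤ 1 / 2)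
    (hδ : (exp (A * L * (|lam| + 2 * mu * (B + |m|)) * e) * (1 + 2 / a)) ^ Fintype.card κ ≤ 1 + δ) (hδ' : (1 / (1 - 1 / a)) ^ Fintype.card κ ≤ 1 / (1 - δ))
    {h e1 t V : ℝ} (hh : 0 < h) (ht : 0 ≤ t)
    (c1 : Cs al f (lam + h) - Cs al f lam ≤ h * (m + e1) - log 4) (c2 : Cs al f (lam - h) - Cs al f lam ≤ -(h * (m - e1)) - log 4)
    (c3 : lam * m - Cs al f lam + log 4 + mu * e1 ^ 2 ≤ mu * t ^ 2) (c4 : lam * m - Cs al f lam + lam ^ 2 / (4 * mu) + mu * e1 ^ 2 ≤ V) :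
    (PP nu1).real {x | ∀ i < n, Ms al f (Ph s s' u w c (Rt i) x) < m - t} ≤ 4 * (3 * δ + 4 * exp V / n) := by
  obtain ⟨y, hy⟩ : ∃ y : ℝ, y = ∫ z, Yw al f lam mu m z ∂(Measure.pi fun _ : κ => uI) := ⟨_, rfl⟩
  have hym := Yw_mean (al := al) hf hb hh hmu.le c1 c2
  rw [← hy] at hym
  have hy0 : 0 < y := lt_of_lt_of_le (by positivity) hym
  obtain ⟨S, hS⟩ : ∃ S : ℝ, S = exp (lam * m - Cs al f lam + lam ^ 2 / (4 * mu)) := ⟨_, rfl⟩
  have hm := second_moment hf hper hb hL hA hB hA0 hL0 hmu hc (s := s) (s' := s') (u := u) (w := w) ha hn h1 h2 h3 he hδ0 hδ1 hδ hδ' hy hy0 (S := S) (fun z => by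
    rw [hS]
    exact Yw_le hmu z)
  have hsub : {x | ∀ i < n, Ms al f (Ph s s' u w c (Rt i) x) < m - t} ⊆ {x | ∀ i < n, Yw al f lam mu m (Ph s s' u w c (Rt i) x) < y / 2} := by
    intro x hx i hi
    have h5 := hx i hi
    obtain ⟨M, hM⟩ : ∃ M : ℝ, M = Ms al f (Ph s s' u w c (Rt i) x) := ⟨_, rfl⟩
    rw [← hM] at h5
    have h6 : Yw al f lam mu m (Ph s s' u w c (Rt i) x) < exp (-(mu * e1 ^ 2)) / 4 := by
      unfold Yw
      rw [← hM]
      have e4 : exp (-(mu * e1 ^ 2)) / 4 = exp (-(mu * e1 ^ 2) - log 4) := by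
        rw [exp_sub, exp_log (by norm_num)]
      rw [e4, exp_lt_exp]
      have h7 : t ^ 2 < (M - m) ^ 2 := by nlinarith
      have h8 : mu * t ^ 2 < mu * (M - m) ^ 2 := mul_lt_mul_of_pos_left h7 hmu
      have h9 : lam * M ≤ lam * m := mul_le_mul_of_nonneg_left (by linarith) hlam
      linarith
    show Yw al f lam mu m (Ph s s' u w c (Rt i) x) < y / 2
    linarith
  refine (measureReal_mono hsub).trans (hm.trans ?_)
  have hn0 : (0 : ℝ) < n := by exact_mod_cast hn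
  have h10 : S ≤ exp V * exp (-(mu * e1 ^ 2)) := by
    rw [hS, ← exp_add, exp_le_exp]
    linarith
  have h11 : 2 * S / (n * y) ≤ 4 * exp V / n := by
    rw [div_le_div_iff₀ (by positivity) hn0]
    have h12 : 2 * S ≤ 4 * exp V * y := by
      have h13 : exp V * exp (-(mu * e1 ^ 2)) ≤ exp V * (2 * y) := mul_le_mul_of_nonneg_left (by linarith) (exp_pos _).le
      linarith
    nlinarith
  linarith

variable {H₀ : ℝ → ℝ}

theorem low_pt1 (h2 : ContDiff ℝ 2 H₀) {τ : ℝ} (hτ : τ ≠ 0) {σ : ℝ} (hσ : |σ| = 1) {K : ℝ} (hK : ∀ ω t, |rho (Hx H₀ τ ω) t| ≤ K) {N l : ℕ} (hl : 20 * (N : ℝ) ^ 2 ≤ 16 ^ l)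
    {lam mu m : ℝ} (hlam : 0 ≤ lam) (hmu : 0 < mu) {a e : ℝ} (ha : 1 < a) (he : 0 ≤ e) {n : ℕ} (hn : 0 < n) {Rt : ℕ → ℝ} (h0 : ∀ i < n, 0 < Rt i)
    (h1 : ∀ i < n, a ≤ Rt i * (|τ| / (2 * 2 ^ (Amp.am l)))) (h2' : ∀ i < n, ∀ j < n, i ≠ j → a ≤ |Rt j - Rt i| * (|τ| / (2 * 2 ^ (Amp.am l)))) (h3 : ∀ i < n, ∀ j < n, |Rt j - Rt i| ≤ e * Rt i)
    {δ : ℝ} (hδ0 : 0 < δ) (hδ1 : δ ≤ 1 / 2) (hδ : 2 * (9 * (N : ℝ) ^ 2 * (sqrt K * (2 * N) * (|lam| + 2 * mu * (9 * (N : ℝ) ^ 2 * sqrt K + |m|)) * e + 2 / a)) ≤ δ)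
    {h e1 t V W : ℝ} (hh : 0 < h) (ht : 0 ≤ t) (c3 : W + log 4 + mu * e1 ^ 2 ≤ mu * t ^ 2) (c4 : W + lam ^ 2 / (4 * mu) + mu * e1 ^ 2 ≤ V) (c : ℝ × ℝ) :
    (PP nu1).real {ω | CX σ (Hx H₀ τ ω) N (lam + h) - CX σ (Hx H₀ τ ω) N lam ≤ h * (m + e1) - log 4 ∧
      CX σ (Hx H₀ τ ω) N (lam - h) - CX σ (Hx H₀ τ ω) N lam ≤ -(h * (m - e1)) - log 4 ∧ lam * m - CX σ (Hx H₀ τ ω) N lam ≤ W ∧
      ∀ i < n, σ * Mx (Hx H₀ τ ω) N (Rt i) c < m - t} ≤ 4 * (3 * δ + 4 * exp V / n) := by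
  have htau : 0 < |τ| := abs_pos.2 hτ
  have hn0 : (0 : ℝ) < n := by exact_mod_cast hn
  have ha0 : 0 < a := by linarith
  refine prob_le (FF l (Ix N l)) ?_ (by positivity) fun ω => ?_
  · have m1 : MeasurableSet {ω | CX σ (Hx H₀ τ ω) N (lam + h) - CX σ (Hx H₀ τ ω) N lam ≤ h * (m + e1) - log 4} :=
      (isClosed_le ((CX_cont h2 τ σ N _).sub (CX_cont h2 τ σ N _)) continuous_const).measurableSet
    have m2 : MeasurableSet {ω | CX σ (Hx H₀ τ ω) N (lam - h) - CX σ (Hx H₀ τ ω) N lam ≤ -(h * (m - e1)) - log 4} :=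
      (isClosed_le ((CX_cont h2 τ σ N _).sub (CX_cont h2 τ σ N _)) continuous_const).measurableSet
    have m3 : MeasurableSet {ω | lam * m - CX σ (Hx H₀ τ ω) N lam ≤ W} :=
      (isClosed_le (continuous_const.sub (CX_cont h2 τ σ N _)) continuous_const).measurableSet
    have m4 : MeasurableSet {ω | ∀ i < n, σ * Mx (Hx H₀ τ ω) N (Rt i) c < m - t} := by
      have e : {ω | ∀ i < n, σ * Mx (Hx H₀ τ ω) N (Rt i) c < m - t} = ⋂ i : ℕ, ⋂ _ : i < n, {ω | σ * Mx (Hx H₀ τ ω) N (Rt i) c < m - t} := by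
        ext ω
        simp
      rw [e]
      exact MeasurableSet.iInter fun i => MeasurableSet.iInter fun _ => (isOpen_lt (continuous_const.mul (Mx_cont h2 τ N (Rt i) c)) continuous_const).measurableSet
    exact m1.inter (m2.inter (m3.inter m4))
  · obtain ⟨al, hal⟩ : ∃ al : prim N → ℝ, al = aal σ (Hx H₀ τ (upd (FF l (Ix N l)) om0 ω)) N := ⟨_, rfl⟩
    have key : ∀ x, (upd (FF l (Ix N l)) x ω ∈ {ω | CX σ (Hx H₀ τ ω) N (lam + h) - CX σ (Hx H₀ τ ω) N lam ≤ h * (m + e1) - log 4 ∧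
        CX σ (Hx H₀ τ ω) N (lam - h) - CX σ (Hx H₀ τ ω) N lam ≤ -(h * (m - e1)) - log 4 ∧ lam * m - CX σ (Hx H₀ τ ω) N lam ≤ W ∧
        ∀ i < n, σ * Mx (Hx H₀ τ ω) N (Rt i) c < m - t}) ↔ (Cs al (ff N) (lam + h) - Cs al (ff N) lam ≤ h * (m + e1) - log 4 ∧
        Cs al (ff N) (lam - h) - Cs al (ff N) lam ≤ -(h * (m - e1)) - log 4 ∧ lam * m - Cs al (ff N) lam ≤ W ∧
        ∀ i < n, Ms al (ff N) (Ph (ss τ l N) (ss' τ l N) (uu (Hx H₀ τ (upd (FF l (Ix N l)) om0 ω)) N) (ww c N) (cc N l) (Rt i) x) < m - t) := by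
      intro x
      simp only [mem_ofPred_eq, rep_CX h2 τ σ hl x ω, rep_Mx h2 τ σ hl x ω, hal]
    simp only [key]
    by_cases hC : Cs al (ff N) (lam + h) - Cs al (ff N) lam ≤ h * (m + e1) - log 4 ∧
        Cs al (ff N) (lam - h) - Cs al (ff N) lam ≤ -(h * (m - e1)) - log 4 ∧ lam * m - Cs al (ff N) lam ≤ W
    swap
    · have e : {x : Om | Cs al (ff N) (lam + h) - Cs al (ff N) lam ≤ h * (m + e1) - log 4 ∧
          Cs al (ff N) (lam - h) - Cs al (ff N) lam ≤ -(h * (m - e1)) - log 4 ∧ lam * m - Cs al (ff N) lam ≤ W ∧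
          ∀ i < n, Ms al (ff N) (Ph (ss τ l N) (ss' τ l N) (uu (Hx H₀ τ (upd (FF l (Ix N l)) om0 ω)) N) (ww c N) (cc N l) (Rt i) x) < m - t} = ∅ := by
        ext x
        simp only [mem_ofPred_eq, mem_empty_iff_false, iff_false]
        rintro ⟨g1, g2, g3, _⟩
        exact hC ⟨g1, g2, g3⟩
      rw [e]
      simp only [measureReal_empty]
      positivity
    obtain ⟨g1, g2, g3⟩ := hC
    have halb : ∀ k, |al k| ≤ sqrt K := by
      intro k
      rw [hal]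
      unfold aal
      rw [abs_mul, hσ, one_mul, abs_of_nonneg (ak_nonneg _ _)]
      exact ak_le (hK _) k.2
    obtain ⟨Cd, hCd⟩ : ∃ Cd : ℝ, Cd = 9 * (N : ℝ) ^ 2 := ⟨_, rfl⟩
    have hcard : (Fintype.card (prim N) : ℝ) ≤ Cd := by
      rw [Fintype.card_coe, hCd]
      exact prim_card N
    have hcard0 : (0 : ℝ) ≤ Fintype.card (prim N) := Nat.cast_nonneg _
    have halS : ∑ k, |al k| ≤ Cd * sqrt K := by
      refine (Finset.sum_le_sum fun k _ => halb k).trans ?_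
      rw [Finset.sum_const, nsmul_eq_mul, Finset.card_univ]
      exact mul_le_mul_of_nonneg_right hcard (sqrt_nonneg _)
    obtain ⟨Q, hQ⟩ : ∃ Q : ℝ, Q = sqrt K * (2 * N) * (|lam| + 2 * mu * (Cd * sqrt K + |m|)) := ⟨_, rfl⟩
    have hCd0 : 0 ≤ Cd := hcard0.trans hcard
    have hQ0 : 0 ≤ Q := by rw [hQ]; positivity
    rw [← hCd, ← hQ] at hδ
    have h2a : 0 < 2 / a := by positivity
    have hx0 : 0 ≤ Cd * (Q * e + 2 / a) := by positivity
    have hx4 : Cd * (Q * e + 2 / a) ≤ 1 / 4 := by linarith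
    have hfl : ∀ (k : prim N) (x t : ℝ), |ff N k (x + t) - ff N k x| ≤ 2 * N * |t| := by
      intro k x t
      unfold ff
      refine (fJ_lip _ _ _).trans (mul_le_mul_of_nonneg_right ?_ (abs_nonneg _))
      have : (N - 1) / sn k ≤ N := (Nat.div_le_self _ _).trans (Nat.sub_le _ _)
      have : (((N - 1) / sn k : ℕ) : ℝ) ≤ N := by exact_mod_cast this
      linarith
    have hslow : ∀ k : prim N, |τ| / (2 * 2 ^ (Amp.am l)) ≤ |ss τ l N k| := fun k => ss_low k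
    have hs0 : ∀ k : prim N, 0 < |ss τ l N k| := fun k => lt_of_lt_of_le (by positivity) (hslow k)
    have hL := low_tail (al := al) (f := ff N) (fun k => fJ_cont _) (fun k => fJ_per _) (fun k x => fJ_bd _ x) hfl halb halS (sqrt_nonneg K) (by positivity) hlam hmu
      (cc_inj hl) (s := ss τ l N) (s' := ss' τ l N) (u := uu (Hx H₀ τ (upd (FF l (Ix N l)) om0 ω)) N) (w := ww c N) ha hn (Rt := Rt)
      (fun i hi k => by
        rw [abs_mul, abs_of_pos (h0 i hi)]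
        exact (h1 i hi).trans (mul_le_mul_of_nonneg_left (hslow k) (h0 i hi).le))
      (fun i hi j hj hij k => by
        rw [← sub_mul, abs_mul]
        exact (h2' i hi j hj hij).trans (mul_le_mul_of_nonneg_left (hslow k) (abs_nonneg _)))
      (fun i hi j hj k => by
        rw [← sub_mul, abs_mul, abs_mul, mul_div_mul_right _ _ (hs0 k).ne', abs_of_pos (h0 i hi), div_le_iff₀ (h0 i hi)]
        exact h3 i hi j hj) he hδ0 hδ1
      (by
        rw [← hQ]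
        calc (exp (Q * e) * (1 + 2 / a)) ^ Fintype.card (prim N) ≤ (exp (Q * e + 2 / a)) ^ Fintype.card (prim N) := by
              refine pow_le_pow_left₀ (by positivity) ?_ _
              rw [exp_add]
              refine mul_le_mul_of_nonneg_left ?_ (exp_pos _).le
              have := add_one_le_exp (2 / a)
              linarith
          _ = exp (Fintype.card (prim N) * (Q * e + 2 / a)) := by rw [← exp_nat_mul]
          _ ≤ exp (Cd * (Q * e + 2 / a)) := exp_le_exp.2 (mul_le_mul_of_nonneg_right hcard (by positivity))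
          _ ≤ 1 + 2 * (Cd * (Q * e + 2 / a)) := by
            obtain ⟨x, hx⟩ : ∃ x : ℝ, x = Cd * (Q * e + 2 / a) := ⟨_, rfl⟩
            rw [← hx] at hx0 hx4 ⊢
            have q1 := add_one_le_exp (-x)
            have q2 : exp x * exp (-x) = 1 := by rw [← exp_add, add_neg_cancel, exp_zero]
            have q3 := exp_pos x
            have q4 : exp x * (1 - x) ≤ 1 := by
              rw [← q2]
              exact mul_le_mul_of_nonneg_left (by linarith) q3.le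
            nlinarith
          _ ≤ 1 + δ := by linarith)
      (by
        have q1 : 0 < 1 - 1 / a := by
          have : 1 / a < 1 := by rw [div_lt_one ha0]; exact ha
          linarith
        have q2 : 0 < 1 - δ := by linarith
        rw [one_div_pow]
        refine one_div_le_one_div_of_le q2 ?_
        have q3 := one_add_mul_le_pow (a := -(1 / a)) (by
          have : 1 / a < 1 := by rw [div_lt_one ha0]; exact ha
          linarith) (Fintype.card (prim N))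
        have q4 : (Fintype.card (prim N) : ℝ) * (1 / a) ≤ δ := by
          calc (Fintype.card (prim N) : ℝ) * (1 / a) ≤ Cd * (1 / a) := mul_le_mul_of_nonneg_right hcard (by positivity)
            _ ≤ 2 * (Cd * (Q * e + 2 / a)) := by
              have r1 : 0 ≤ Cd * (Q * e) := by positivity
              have r2 : 0 ≤ Cd * (1 / a) := by positivity
              have r3 : Cd * (2 / a) = 2 * (Cd * (1 / a)) := by ring
              nlinarith
            _ ≤ δ := hδ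
        have q5 : 1 + (Fintype.card (prim N) : ℝ) * -(1 / a) ≤ (1 - 1 / a) ^ Fintype.card (prim N) := by
          rw [sub_eq_add_neg]
          exact q3
        linarith) hh ht g1 g2 (t := t) (V := V) (by linarith) (by linarith)
    refine le_trans (measureReal_mono ?_) hL
    rintro x ⟨_, _, _, g4⟩
    exact g4

end Pool.Agent.Helper22.AI
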