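import Pool.Agent.Helper22.AI.Upper4

/-!
# EX4: the almost sure lower bound for the measure of the large values
-/

open MeasureTheory Set Real

set_option autoImplicit false
set_option linter.unusedSectionVars false

namespace Pool.Agent.Helper22.AI

open Pool.Agent.Helper93.EX

variable [Amp]

open Pool.Agent.Helper93.AO
open Pool.Agent.Helper22.AE (rho nk tk box cz)

open Classical in
theorem low_tail4 {κ : Type} [Fintype κ] [DecidableEq κ] {al : κ → ℝ} {f : κ → ℝ → ℝ} (hf : ∀ k, Continuous (f k)) (hper : ∀ k, Function.Periodic (f k) 1)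
    (hb : ∀ k x, |f k x| ≤ 1) {L : ℝ} (hL : ∀ k x t, |f k (x + t) - f k x| ≤ L * |t|) {A : ℝ} (hA : ∀ k, |al k| ≤ A) {B : ℝ} (hB : ∑ k, |al k| ≤ B) (hA0 : 0 ≤ A) (hL0 : 0 ≤ L)
    {lam mu m : ℝ} (hlam : 0 ≤ lam) (hmu : 0 < mu) {c : κ → ℕ × ℕ} (hc : Function.Injective c) {s s' u w : κ → ℝ} {a e : ℝ} (ha : 1 < a) {n : ℕ} (hn : 0 < n) {Rt : ℕ → ℝ}
    (h1 : ∀ i < n, ∀ k, a ≤ |Rt i * s k|) (h2 : ∀ i < n, ∀ j < n, i ≠ j → ∀ k, a ≤ |Rt j * s k - Rt i * s k|)
    (h3 : ∀ i < n, ∀ j < n, ∀ k, |Rt j * s k - Rt i * s k| / |Rt i * s k| ≤ e) (he : 0 ≤ e) {δ : ℝ} (hδ0 : 0 < δ) (hδ1 : δ ≤ 1 / 2)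
    (hδ : (exp (A * L * (|lam| + 2 * mu * (B + |m|)) * e) * (1 + 2 / a)) ^ Fintype.card κ ≤ 1 + δ) (hδ' : (1 / (1 - 1 / a)) ^ Fintype.card κ ≤ 1 / (1 - δ))
    {h e1 t V : ℝ} (hh : 0 < h) (ht : 0 ≤ t)
    (c1 : Cs al f (lam + h) - Cs al f lam ≤ h * (m + e1) - log 4) (c2 : Cs al f (lam - h) - Cs al f lam ≤ -(h * (m - e1)) - log 4)
    (c3 : lam * m - Cs al f lam + log 8 + mu * e1 ^ 2 ≤ mu * t ^ 2) (c4 : lam * m - Cs al f lam + lam ^ 2 / (4 * mu) + mu * e1 ^ 2 ≤ V) :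
    (PP nu1).real {x | (∑ i ∈ Finset.range n, if m - t ≤ Ms al f (Ph s s' u w c (Rt i) x) then (1 : ℝ) else 0) * (8 * exp V) ≤ n} ≤ 4 * (3 * δ + 4 * exp V / n) := by
  obtain ⟨y, hy⟩ : ∃ y : ℝ, y = ∫ z, Yw al f lam mu m z ∂(Measure.pi fun _ : κ => uI) := ⟨_, rfl⟩
  have hym := Yw_mean (al := al) hf hb hh hmu.le c1 c2
  rw [← hy] at hym
  have hy0 : 0 < y := lt_of_lt_of_le (by positivity) hym
  obtain ⟨S, hS⟩ : ∃ S : ℝ, S = exp (lam * m - Cs al f lam + lam ^ 2 / (4 * mu)) := ⟨_, rfl⟩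
  have hSY : ∀ z, Yw al f lam mu m z ≤ S := fun z => by
    rw [hS]
    exact Yw_le hmu z
  have hS0 : 0 < S := by rw [hS]; exact exp_pos _
  have hm := second_sum hf hper hb hL hA hB hA0 hL0 hmu hc (s := s) (s' := s') (u := u) (w := w) ha hn h1 h2 h3 he hδ0 hδ1 hδ hδ' hy hy0 (S := S) hSY
  have hn0 : (0 : ℝ) < n := by exact_mod_cast hn
  have h10 : S ≤ exp V * exp (-(mu * e1 ^ 2)) := by
    rw [hS, ← exp_add, exp_le_exp]
    linarith
  have hsub : {x | (∑ i ∈ Finset.range n, if m - t ≤ Ms al f (Ph s s' u w c (Rt i) x) then (1 : ℝ) else 0) * (8 * exp V) ≤ n} ⊆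
      {x | ∑ i ∈ Finset.range n, Yw al f lam mu m (Ph s s' u w c (Rt i) x) ≤ n * (y / 2)} := by
    intro x hx
    show ∑ i ∈ Finset.range n, Yw al f lam mu m (Ph s s' u w c (Rt i) x) ≤ n * (y / 2)
    have hx' : (∑ i ∈ Finset.range n, if m - t ≤ Ms al f (Ph s s' u w c (Rt i) x) then (1 : ℝ) else 0) * (8 * exp V) ≤ n := hx
    have hpt : ∀ i ∈ Finset.range n, Yw al f lam mu m (Ph s s' u w c (Rt i) x) ≤ (if m - t ≤ Ms al f (Ph s s' u w c (Rt i) x) then (1 : ℝ) else 0) * S + y / 4 := by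
      intro i _
      by_cases hi : m - t ≤ Ms al f (Ph s s' u w c (Rt i) x)
      · rw [if_pos hi, one_mul]
        have := hSY (Ph s s' u w c (Rt i) x)
        linarith
      · rw [if_neg hi, zero_mul, zero_add]
        obtain ⟨M, hM⟩ : ∃ M : ℝ, M = Ms al f (Ph s s' u w c (Rt i) x) := ⟨_, rfl⟩
        rw [← hM] at hi
        have h5 : M < m - t := not_le.1 hi
        have h6 : Yw al f lam mu m (Ph s s' u w c (Rt i) x) ≤ exp (-(mu * e1 ^ 2)) / 8 := by
          unfold Yw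
          rw [← hM]
          have e4 : exp (-(mu * e1 ^ 2)) / 8 = exp (-(mu * e1 ^ 2) - log 8) := by
            rw [exp_sub, exp_log (by norm_num)]
          rw [e4, exp_le_exp]
          have h7 : t ^ 2 ≤ (M - m) ^ 2 := by nlinarith
          have h8 : mu * t ^ 2 ≤ mu * (M - m) ^ 2 := mul_le_mul_of_nonneg_left h7 hmu.le
          have h9 : lam * M ≤ lam * m := mul_le_mul_of_nonneg_left (by linarith) hlam
          linarith
        linarith
    refine (Finset.sum_le_sum hpt).trans ?_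
    rw [Finset.sum_add_distrib, ← Finset.sum_mul, Finset.sum_const, Finset.card_range, nsmul_eq_mul]
    obtain ⟨g, hg⟩ : ∃ g : ℝ, g = ∑ i ∈ Finset.range n, if m - t ≤ Ms al f (Ph s s' u w c (Rt i) x) then (1 : ℝ) else 0 := ⟨_, rfl⟩
    rw [← hg] at hx' ⊢
    have hg0 : 0 ≤ g := by
      rw [hg]
      exact Finset.sum_nonneg fun i _ => by split_ifs <;> norm_num
    have h11 : g * S ≤ n * (y / 4) := by
      calc g * S ≤ g * (exp V * exp (-(mu * e1 ^ 2))) := mul_le_mul_of_nonneg_left h10 hg0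
        _ ≤ g * (exp V * (2 * y)) := by
          refine mul_le_mul_of_nonneg_left (mul_le_mul_of_nonneg_left (by linarith) (exp_pos _).le) hg0
        _ = g * (8 * exp V) * (y / 4) := by ring
        _ ≤ n * (y / 4) := mul_le_mul_of_nonneg_right hx' (by positivity)
    linarith
  refine (measureReal_mono hsub).trans (hm.trans ?_)
  have h11 : 2 * S / (n * y) ≤ 4 * exp V / n := by
    rw [div_le_div_iff₀ (by positivity) hn0]
    have h12 : 2 * S ≤ 4 * exp V * y := by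
      have h13 : exp V * exp (-(mu * e1 ^ 2)) ≤ exp V * (2 * y) := mul_le_mul_of_nonneg_left (by linarith) (exp_pos _).le
      linarith
    nlinarith
  linarith

variable {H₀ : ℝ → ℝ}

open Classical in
theorem low_pt4 (h2 : ContDiff ℝ 2 H₀) {τ : ℝ} (hτ : τ ≠ 0) {σ : ℝ} (hσ : |σ| = 1) {K : ℝ} (hK : ∀ ω t, |rho (Hx H₀ τ ω) t| ≤ K) {N l : ℕ} (hl : 20 * (N : ℝ) ^ 2 ≤ 16 ^ l)
    {lam mu m : ℝ} (hlam : 0 ≤ lam) (hmu : 0 < mu) {a e : ℝ} (ha : 1 < a) (he : 0 ≤ e) {n : ℕ} (hn : 0 < n) {Rt : ℕ → ℝ} (h0 : ∀ i < n, 0 < Rt i)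
    (h1 : ∀ i < n, a ≤ Rt i * (|τ| / (2 * 2 ^ (Amp.am l)))) (h2' : ∀ i < n, ∀ j < n, i ≠ j → a ≤ |Rt j - Rt i| * (|τ| / (2 * 2 ^ (Amp.am l)))) (h3 : ∀ i < n, ∀ j < n, |Rt j - Rt i| ≤ e * Rt i)
    {δ : ℝ} (hδ0 : 0 < δ) (hδ1 : δ ≤ 1 / 2) (hδ : 2 * (9 * (N : ℝ) ^ 2 * (sqrt K * (2 * N) * (|lam| + 2 * mu * (9 * (N : ℝ) ^ 2 * sqrt K + |m|)) * e + 2 / a)) ≤ δ)
    {h e1 t V W : ℝ} (hh : 0 < h) (ht : 0 ≤ t) (c3 : W + log 8 + mu * e1 ^ 2 ≤ mu * t ^ 2) (c4 : W + lam ^ 2 / (4 * mu) + mu * e1 ^ 2 ≤ V) (c : ℝ × ℝ) :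
    (PP nu1).real {ω | CX σ (Hx H₀ τ ω) N (lam + h) - CX σ (Hx H₀ τ ω) N lam ≤ h * (m + e1) - log 4 ∧
      CX σ (Hx H₀ τ ω) N (lam - h) - CX σ (Hx H₀ τ ω) N lam ≤ -(h * (m - e1)) - log 4 ∧ lam * m - CX σ (Hx H₀ τ ω) N lam ≤ W ∧
      (∑ i ∈ Finset.range n, if m - t ≤ σ * Mx (Hx H₀ τ ω) N (Rt i) c then (1 : ℝ) else 0) * (8 * exp V) ≤ n} ≤ 4 * (3 * δ + 4 * exp V / n) := by
  have htau : 0 < |τ| := abs_pos.2 hτ
  have hn0 : (0 : ℝ) < n := by exact_mod_cast hn
  have ha0 : 0 < a := by linarith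
  refine prob_le (FF l (Ix N l)) ?_ (by positivity) fun ω => ?_
  · have m1 : MeasurableSet {ω | CX σ (Hx H₀ τ ω) N (lam + h) - CX σ (Hx H₀ τ ω) N lam ≤ h * (m + e1) - log 4} :=
      (isClosed_le ((CX_cont h2 τ σ N _).sub (CX_cont h2 τ σ N _)) continuous_const).measurableSet
    have m2 : MeasurableSet {ω | CX σ (Hx H₀ τ ω) N (lam - h) - CX σ (Hx H₀ τ ω) N lam ≤ -(h * (m - e1)) - log 4} :=
      (isClosed_le ((CX_cont h2 τ σ N _).sub (CX_cont h2 τ σ N _)) continuous_const).measurableSet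
    have m3 : MeasurableSet {ω | lam * m - CX σ (Hx H₀ τ ω) N lam ≤ W} :=
      (isClosed_le (continuous_const.sub (CX_cont h2 τ σ N _)) continuous_const).measurableSet
    have m4 : MeasurableSet {ω | (∑ i ∈ Finset.range n, if m - t ≤ σ * Mx (Hx H₀ τ ω) N (Rt i) c then (1 : ℝ) else 0) * (8 * exp V) ≤ n} := by
      refine measurableSet_le (Measurable.mul (Finset.measurable_sum _ fun i _ => ?_) measurable_const) measurable_const
      exact Measurable.ite (isClosed_le continuous_const (continuous_const.mul (Mx_cont h2 τ N (Rt i) c))).measurableSet measurable_const measurable_const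
    exact m1.inter (m2.inter (m3.inter m4))
  · obtain ⟨al, hal⟩ : ∃ al : prim N → ℝ, al = aal σ (Hx H₀ τ (upd (FF l (Ix N l)) om0 ω)) N := ⟨_, rfl⟩
    have key : ∀ x, (upd (FF l (Ix N l)) x ω ∈ {ω | CX σ (Hx H₀ τ ω) N (lam + h) - CX σ (Hx H₀ τ ω) N lam ≤ h * (m + e1) - log 4 ∧
        CX σ (Hx H₀ τ ω) N (lam - h) - CX σ (Hx H₀ τ ω) N lam ≤ -(h * (m - e1)) - log 4 ∧ lam * m - CX σ (Hx H₀ τ ω) N lam ≤ W ∧
        (∑ i ∈ Finset.range n, if m - t ≤ σ * Mx (Hx H₀ τ ω) N (Rt i) c then (1 : ℝ) else 0) * (8 * exp V) ≤ n}) ↔ (Cs al (ff N) (lam + h) - Cs al (ff N) lam ≤ h * (m + e1) - log 4 ∧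
        Cs al (ff N) (lam - h) - Cs al (ff N) lam ≤ -(h * (m - e1)) - log 4 ∧ lam * m - Cs al (ff N) lam ≤ W ∧
        (∑ i ∈ Finset.range n, if m - t ≤ Ms al (ff N) (Ph (ss τ l N) (ss' τ l N) (uu (Hx H₀ τ (upd (FF l (Ix N l)) om0 ω)) N) (ww c N) (cc N l) (Rt i) x) then (1 : ℝ) else 0) * (8 * exp V) ≤ n) := by
      intro x
      simp only [mem_ofPred_eq, rep_CX h2 τ σ hl x ω, rep_Mx h2 τ σ hl x ω, hal]
    simp only [key]
    by_cases hC : Cs al (ff N) (lam + h) - Cs al (ff N) lam ≤ h * (m + e1) - log 4 ∧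
        Cs al (ff N) (lam - h) - Cs al (ff N) lam ≤ -(h * (m - e1)) - log 4 ∧ lam * m - Cs al (ff N) lam ≤ W
    swap
    · have e : {x : Om | Cs al (ff N) (lam + h) - Cs al (ff N) lam ≤ h * (m + e1) - log 4 ∧
          Cs al (ff N) (lam - h) - Cs al (ff N) lam ≤ -(h * (m - e1)) - log 4 ∧ lam * m - Cs al (ff N) lam ≤ W ∧
          (∑ i ∈ Finset.range n, if m - t ≤ Ms al (ff N) (Ph (ss τ l N) (ss' τ l N) (uu (Hx H₀ τ (upd (FF l (Ix N l)) om0 ω)) N) (ww c N) (cc N l) (Rt i) x) then (1 : ℝ) else 0) * (8 * exp V) ≤ n} = ∅ := by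
        ext x
        simp only [mem_ofPred_eq, mem_empty_iff_false, iff_false]
        rintro ⟨g1, g2, g3, _⟩
        exact hC ⟨g1, g2, g3⟩
      rw [e]
      simp only [measureReal_empty]
      positivity
    obtain ⟨g1, g2, g3⟩ := hC
    have halb : ∀ k, |al k| ≤ sqrt K := by
      intro k
      rw [hal]
      unfold aal
      rw [abs_mul, hσ, one_mul, abs_of_nonneg (ak_nonneg _ _)]
      exact ak_le (hK _) k.2
    obtain ⟨Cd, hCd⟩ : ∃ Cd : ℝ, Cd = 9 * (N : ℝ) ^ 2 := ⟨_, rfl⟩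
    have hcard : (Fintype.card (prim N) : ℝ) ≤ Cd := by
      rw [Fintype.card_coe, hCd]
      exact prim_card N
    have hcard0 : (0 : ℝ) ≤ Fintype.card (prim N) := Nat.cast_nonneg _
    have halS : ∑ k, |al k| ≤ Cd * sqrt K := by
      refine (Finset.sum_le_sum fun k _ => halb k).trans ?_
      rw [Finset.sum_const, nsmul_eq_mul, Finset.card_univ]
      exact mul_le_mul_of_nonneg_right hcard (sqrt_nonneg _)
    obtain ⟨Q, hQ⟩ : ∃ Q : ℝ, Q = sqrt K * (2 * N) * (|lam| + 2 * mu * (Cd * sqrt K + |m|)) := ⟨_, rfl⟩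
    have hCd0 : 0 ≤ Cd := hcard0.trans hcard
    have hQ0 : 0 ≤ Q := by rw [hQ]; positivity
    rw [← hCd, ← hQ] at hδ
    have h2a : 0 < 2 / a := by positivity
    have hx0 : 0 ≤ Cd * (Q * e + 2 / a) := by positivity
    have hx4 : Cd * (Q * e + 2 / a) ≤ 1 / 4 := by linarith
    have hfl : ∀ (k : prim N) (x t : ℝ), |ff N k (x + t) - ff N k x| ≤ 2 * N * |t| := by
      intro k x t
      unfold ff
      refine (fJ_lip _ _ _).trans (mul_le_mul_of_nonneg_right ?_ (abs_nonneg _))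
      have : (N - 1) / sn k ≤ N := (Nat.div_le_self _ _).trans (Nat.sub_le _ _)
      have : (((N - 1) / sn k : ℕ) : ℝ) ≤ N := by exact_mod_cast this
      linarith
    have hslow : ∀ k : prim N, |τ| / (2 * 2 ^ (Amp.am l)) ≤ |ss τ l N k| := fun k => ss_low k
    have hs0 : ∀ k : prim N, 0 < |ss τ l N k| := fun k => lt_of_lt_of_le (by positivity) (hslow k)
    have hL := low_tail4 (al := al) (f := ff N) (fun k => fJ_cont _) (fun k => fJ_per _) (fun k x => fJ_bd _ x) hfl halb halS (sqrt_nonneg K) (by positivity) hlam hmu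
      (cc_inj hl) (s := ss τ l N) (s' := ss' τ l N) (u := uu (Hx H₀ τ (upd (FF l (Ix N l)) om0 ω)) N) (w := ww c N) ha hn (Rt := Rt)
      (fun i hi k => by
        rw [abs_mul, abs_of_pos (h0 i hi)]
        exact (h1 i hi).trans (mul_le_mul_of_nonneg_left (hslow k) (h0 i hi).le))
      (fun i hi j hj hij k => by
        rw [← sub_mul, abs_mul]
        exact (h2' i hi j hj hij).trans (mul_le_mul_of_nonneg_left (hslow k) (abs_nonneg _)))
      (fun i hi j hj k => by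
        rw [← sub_mul, abs_mul, abs_mul, mul_div_mul_right _ _ (hs0 k).ne', abs_of_pos (h0 i hi), div_le_iff₀ (h0 i hi)]
        exact h3 i hi j hj) he hδ0 hδ1
      (by
        rw [← hQ]
        calc (exp (Q * e) * (1 + 2 / a)) ^ Fintype.card (prim N) ≤ (exp (Q * e + 2 / a)) ^ Fintype.card (prim N) := by
              refine pow_le_pow_left₀ (by positivity) ?_ _
              rw [exp_add]
              refine mul_le_mul_of_nonneg_left ?_ (exp_pos _).le
              have := add_one_le_exp (2 / a)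
              linarith
          _ = exp (Fintype.card (prim N) * (Q * e + 2 / a)) := by rw [← exp_nat_mul]
          _ ≤ exp (Cd * (Q * e + 2 / a)) := exp_le_exp.2 (mul_le_mul_of_nonneg_right hcard (by positivity))
          _ ≤ 1 + 2 * (Cd * (Q * e + 2 / a)) := by
            obtain ⟨x, hx⟩ : ∃ x : ℝ, x = Cd * (Q * e + 2 / a) := ⟨_, rfl⟩
            rw [← hx] at hx0 hx4 ⊢
            have q1 := add_one_le_exp (-x)
            have q2 : exp x * exp (-x) = 1 := by rw [← exp_add, add_neg_cancel, exp_zero]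
            have q3 := exp_pos x
            have q4 : exp x * (1 - x) ≤ 1 := by
              rw [← q2]
              exact mul_le_mul_of_nonneg_left (by linarith) q3.le
            nlinarith
          _ ≤ 1 + δ := by linarith)
      (by
        have q1 : 0 < 1 - 1 / a := by
          have : 1 / a < 1 := by rw [div_lt_one ha0]; exact ha
          linarith
        have q2 : 0 < 1 - δ := by linarith
        rw [one_div_pow]
        refine one_div_le_one_div_of_le q2 ?_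
        have q3 := one_add_mul_le_pow (a := -(1 / a)) (by
          have : 1 / a < 1 := by rw [div_lt_one ha0]; exact ha
          linarith) (Fintype.card (prim N))
        have q4 : (Fintype.card (prim N) : ℝ) * (1 / a) ≤ δ := by
          calc (Fintype.card (prim N) : ℝ) * (1 / a) ≤ Cd * (1 / a) := mul_le_mul_of_nonneg_right hcard (by positivity)
            _ ≤ 2 * (Cd * (Q * e + 2 / a)) := by
              have r1 : 0 ≤ Cd * (Q * e) := by positivity
              have r2 : 0 ≤ Cd * (1 / a) := by positivity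
              have r3 : Cd * (2 / a) = 2 * (Cd * (1 / a)) := by ring
              nlinarith
            _ ≤ δ := hδ
        have q5 : 1 + (Fintype.card (prim N) : ℝ) * -(1 / a) ≤ (1 - 1 / a) ^ Fintype.card (prim N) := by
          rw [sub_eq_add_neg]
          exact q3
        linarith) hh ht g1 g2 (t := t) (V := V) (by linarith) (by linarith)
    refine le_trans (measureReal_mono ?_) hL
    rintro x ⟨_, _, _, g4⟩
    exact g4

theorem pack_vol {G : Finset ℕ} {x : ℕ → ℝ} {δ : ℝ} (hδ : 0 ≤ δ) (hx : ∀ i j, i < j → x i + δ ≤ x j) {S : Set ℝ} (hS : ∀ i ∈ G, Ico (x i) (x i + δ) ⊆ S) (hf : volume S ≠ ⊤) :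
    G.card * δ ≤ volume.real S := by
  have h1 : volume.real (⋃ i ∈ G, Ico (x i) (x i + δ)) = G.card * δ := by
    rw [measureReal_biUnion_finset (fun i _ j _ hij => ?_) (fun i _ => measurableSet_Ico) (h := fun i _ => measure_Ico_lt_top.ne)]
    · calc ∑ i ∈ G, volume.real (Ico (x i) (x i + δ)) = ∑ _i ∈ G, δ := by
            refine Finset.sum_congr rfl fun i _ => ?_
            rw [Real.volume_real_Ico_of_le (by linarith)]
            ring
        _ = _ := by rw [Finset.sum_const, nsmul_eq_mul]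
    · show Disjoint (Ico (x i) (x i + δ)) (Ico (x j) (x j + δ))
      rw [Set.disjoint_left]
      rintro y ⟨y1, y2⟩ ⟨y3, y4⟩
      rcases lt_or_gt_of_ne hij with h | h
      · have := hx i j h
        linarith
      · have := hx j i h
        linarith
  rw [← h1]
  exact measureReal_mono (iUnion₂_subset hS) hf

end Pool.Agent.Helper22.AI
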