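import Pool.Agent.Helper22.AI.Low4

/-!
# EX4: the almost sure lower bound for the measure of the large values
-/

open MeasureTheory Set Real

set_option autoImplicit false
set_option linter.unusedSectionVars false

namespace Pool.Agent.Helper22.AI

open Pool.Agent.Helper93.EX

variable [Amp]

open Pool.Agent.Helper93.AO
open Pool.Agent.Helper22.AE (rho nk tk box cz)

variable {H₀ : ℝ → ℝ}

theorem lower4 (h2 : ContDiff ℝ 2 H₀) (hp : Function.Periodic H₀ (2 * π)) {τ : ℝ} (hτ : τ ≠ 0) {σ : ℝ} (hσ : |σ| = 1) (a b : ℕ) (hb : b < 2) {ell h m e e1 e2 e3 s : ℝ}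
    (hh : 0 < h) (hhl : h < ell) (he : 0 < e) (he2 : 0 < e2) (he2' : e2 ≤ 1) (he3 : 0 < e3) (hs : s ≤ 1 - e2) (hc : (2 / e ^ 2 + ell ^ 2 / e2) * e1 ^ 2 ≤ e2 / 4) :
    ∀ᵐ ω ∂(PP nu1), ∃ p₀ : ℕ, ∀ p : ℕ, p₀ ≤ p →
      CX σ (Hx H₀ τ ω) (NN a p) ((ell + h) * Lx p ^ (3 / 4 : ℝ)) - CX σ (Hx H₀ τ ω) (NN a p) (ell * Lx p ^ (3 / 4 : ℝ)) ≤ (h * (m + e1) - e3) * Lx p →
      CX σ (Hx H₀ τ ω) (NN a p) ((ell - h) * Lx p ^ (3 / 4 : ℝ)) - CX σ (Hx H₀ τ ω) (NN a p) (ell * Lx p ^ (3 / 4 : ℝ)) ≤ (-(h * (m - e1)) - e3) * Lx p →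
      ell * m * Lx p - CX σ (Hx H₀ τ ω) (NN a p) (ell * Lx p ^ (3 / 4 : ℝ)) ≤ s * Lx p →
      ∀ c : ℝ × ℝ, 2 ^ ((1 - s - e2) * p : ℝ) ≤ volume.real {R : ℝ | R ∈ Icc ((2 : ℝ) ^ p * (1 + b / 2)) (2 ^ p * (1 + (b + 1) / 2)) ∧
        (m - e) * Lx p ^ (1 / 4 : ℝ) ≤ σ * Mx (Hx H₀ τ ω) (NN a p) R c} := by
  classical
  obtain ⟨K, B, hK1, hB0, hKB⟩ := hx_bd h2 hp τ
  obtain ⟨θ, hθ⟩ : ∃ θ : ℝ, θ = e2 / 8 := ⟨_, rfl⟩
  have hθ0 : 0 < θ := by rw [hθ]; positivity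
  have hθ1 : θ ≤ 1 / 8 := by rw [hθ]; linarith only [he2']
  have hell : 0 < ell := by linarith
  obtain ⟨μ₀, hμ⟩ : ∃ μ₀ : ℝ, μ₀ = 2 / e ^ 2 + ell ^ 2 / e2 := ⟨_, rfl⟩
  rw [← hμ] at hc
  have hμ0 : 0 < μ₀ := by rw [hμ]; positivity
  have hμ1 : 2 ≤ μ₀ * e ^ 2 := by
    have e5 : μ₀ * e ^ 2 = 2 + ell ^ 2 / e2 * e ^ 2 := by
      rw [hμ]
      field_simp
    have e6 : 0 ≤ ell ^ 2 / e2 * e ^ 2 := by positivity
    linarith only [e5, e6]
  have hμ2 : ell ^ 2 / (4 * μ₀) ≤ e2 / 4 := by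
    rw [div_le_div_iff₀ (by positivity) (by norm_num)]
    have e5 : ell ^ 2 ≤ μ₀ * e2 := by
      have e6 : μ₀ * e2 = 2 / e ^ 2 * e2 + ell ^ 2 := by
        rw [hμ]
        field_simp
      have e7 : 0 ≤ 2 / e ^ 2 * e2 := by positivity
      linarith only [e6, e7]
    linarith
  obtain ⟨p₁, hp₁1, hp₁⟩ := low_par a hτ (K := K) (B := B) (ell := ell) (μ₀ := μ₀) (m := m) (e := 2 / 3 * e) (e3 := e3) (θ := θ) hμ0.le hB0 (by positivity) he3 hθ0 hθ1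
  have hl2 : 0 < log 2 := log_pos (by norm_num)
  obtain ⟨P, hP⟩ : ∃ P : ℕ → ℕ, P = fun p : ℕ => ⌊θ * (p : ℝ)⌋₊ := ⟨_, rfl⟩
  have hPle : ∀ p, (P p : ℝ) ≤ θ * p := fun p => by
    rw [hP]
    exact Nat.floor_le (by positivity)
  have hP2 : ∀ p, 2 * P p ≤ p := fun p => by
    have h1 := hPle p
    have h3 : (2 * P p : ℝ) ≤ p := by
      have : θ * (p : ℝ) ≤ 1 / 8 * p := mul_le_mul_of_nonneg_right hθ1 (Nat.cast_nonneg _)
      have : (0 : ℝ) ≤ p := Nat.cast_nonneg _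
      linarith
    exact_mod_cast h3
  obtain ⟨n, hn⟩ : ∃ n : ℕ → ℕ, n = fun p => 2 ^ (p - 2 * P p) := ⟨_, rfl⟩
  obtain ⟨Rt, hRt⟩ : ∃ Rt : ℕ → ℕ → ℝ, Rt = fun p i : ℕ => (2 : ℝ) ^ p * (1 + b / 2) + (i : ℝ) * 2 ^ P p := ⟨_, rfl⟩
  have hb0 : (0 : ℝ) ≤ b := Nat.cast_nonneg _
  have hb1 : (b : ℝ) ≤ 1 := by
    have : b ≤ 1 := by omega
    exact_mod_cast this
  have hn0 : ∀ p, 0 < n p := fun p => by rw [hn]; positivity
  have hnP : ∀ p, (n p : ℝ) * 2 ^ P p * 2 ^ P p = 2 ^ p := fun p => by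
    rw [hn]
    simp only [Nat.cast_pow, Nat.cast_ofNat]
    rw [← pow_add, ← pow_add]
    congr 1
    have := hP2 p
    omega
  have hRlo : ∀ p i, (2 : ℝ) ^ p ≤ Rt p i := fun p i => by
    rw [hRt]
    have h1 : (0 : ℝ) ≤ i * 2 ^ P p := by positivity
    have h3 : (0 : ℝ) ≤ 2 ^ p * (b / 2) := by positivity
    simp only
    linarith only [h1, h3]
  have hRlo2 : ∀ p i, (2 : ℝ) ^ p * (1 + b / 2) ≤ Rt p i := fun p i => by
    rw [hRt]
    have h1 : (0 : ℝ) ≤ i * 2 ^ P p := by positivity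
    simp only
    linarith only [h1]
  have hRhi : ∀ p, ∀ i < n p, 1 ≤ P p → Rt p i + 1 ≤ 2 ^ p * (1 + (b + 1) / 2) := fun p i hi hP1 => by
    rw [hRt]
    have h1 : (i : ℝ) + 1 ≤ n p := by exact_mod_cast hi
    have h3 := hnP p
    have h4 : (2 : ℝ) ≤ 2 ^ P p := by
      calc (2 : ℝ) = 2 ^ 1 := (pow_one _).symm
        _ ≤ 2 ^ P p := pow_le_pow_right₀ (by norm_num) hP1
    have h5 : (n p : ℝ) * 2 ^ P p ≤ 2 ^ p / 2 := by
      have : 0 ≤ (n p : ℝ) * 2 ^ P p := by positivity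
      nlinarith only [h3, he2', hθ, hθ0, h4, this]
    have h6 : ((i : ℝ) + 1) * 2 ^ P p ≤ (n p : ℝ) * 2 ^ P p := mul_le_mul_of_nonneg_right h1 (by positivity)
    simp only
    linarith only [h4, h5, h6]
  -- the bad sets
  obtain ⟨q, hq⟩ : ∃ q : ℕ → ℕ, q = fun p : ℕ => ⌈θ / 16 * (p : ℝ)⌉₊ := ⟨_, rfl⟩
  obtain ⟨A, hA⟩ : ∃ A : ℕ → ℕ × ℕ → Set Om, A = fun p v => {ω |
    CX σ (Hx H₀ τ ω) (NN a p) (ell * Lx p ^ (3 / 4 : ℝ) + h * Lx p ^ (3 / 4 : ℝ)) - CX σ (Hx H₀ τ ω) (NN a p) (ell * Lx p ^ (3 / 4 : ℝ)) ≤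
      h * Lx p ^ (3 / 4 : ℝ) * (m * Lx p ^ (1 / 4 : ℝ) + e1 * Lx p ^ (1 / 4 : ℝ)) - log 4 ∧
    CX σ (Hx H₀ τ ω) (NN a p) (ell * Lx p ^ (3 / 4 : ℝ) - h * Lx p ^ (3 / 4 : ℝ)) - CX σ (Hx H₀ τ ω) (NN a p) (ell * Lx p ^ (3 / 4 : ℝ)) ≤
      -(h * Lx p ^ (3 / 4 : ℝ) * (m * Lx p ^ (1 / 4 : ℝ) - e1 * Lx p ^ (1 / 4 : ℝ))) - log 4 ∧
    ell * Lx p ^ (3 / 4 : ℝ) * (m * Lx p ^ (1 / 4 : ℝ)) - CX σ (Hx H₀ τ ω) (NN a p) (ell * Lx p ^ (3 / 4 : ℝ)) ≤ s * Lx p ∧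
    (∑ i ∈ Finset.range (n p), if m * Lx p ^ (1 / 4 : ℝ) - 9 / 10 * e * Lx p ^ (1 / 4 : ℝ) ≤ σ * Mx (Hx H₀ τ ω) (NN a p) (Rt p i) (0 + v.1 / 2 ^ q p, 0 + v.2 / 2 ^ q p)
      then (1 : ℝ) else 0) * (8 * exp ((s + e2 / 2) * Lx p)) ≤ n p} := ⟨_, rfl⟩
  obtain ⟨I, hI⟩ : ∃ I : ℕ → Finset (ℕ × ℕ), I = fun p => Finset.range (1 * 2 ^ q p + 1) ×ˢ Finset.range (1 * 2 ^ q p + 1) := ⟨_, rfl⟩
  obtain ⟨E, hE⟩ : ∃ E : ℕ → Set Om, E = fun p => ⋃ v ∈ I p, A p v := ⟨_, rfl⟩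
  have hz : ∀ p, p₁ ≤ p → 0 < Lx p ^ (1 / 4 : ℝ) ∧ Lx p = (Lx p ^ (1 / 4 : ℝ)) ^ 4 ∧ Lx p ^ (3 / 4 : ℝ) = (Lx p ^ (1 / 4 : ℝ)) ^ 3 ∧ Lx p ^ (1 / 2 : ℝ) = (Lx p ^ (1 / 4 : ℝ)) ^ 2 := by
    intro p hpp
    have h1 : 0 < Lx p := by
      unfold Lx
      have : 1 ≤ p := by omega
      have : (1 : ℝ) ≤ p := by exact_mod_cast this
      positivity
    refine ⟨by positivity, ?_, ?_, ?_⟩
    · rw [← rpow_natCast, ← rpow_mul h1.le]
      norm_num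
    · rw [← rpow_natCast, ← rpow_mul h1.le]
      norm_num
    · rw [← rpow_natCast, ← rpow_mul h1.le]
      norm_num
  have hmeas : ∀ p, p₁ ≤ p → (PP nu1).real (E p) ≤ 448 * (2 : ℝ) ^ (-(θ / 8 * p)) := by
    intro p hpp
    obtain ⟨l, Am, hl, hA1, hA2, hδ, hδ2, hlog1, hlog2, _⟩ := hp₁ p hpp
    obtain ⟨hz0, hz4, hz3, hz2⟩ := hz p hpp
    have h1 : ∀ v ∈ I p, (PP nu1).real (A p v) ≤ 28 * (2 : ℝ) ^ (-(θ / 4 * p)) := by
      intro v _
      rw [hA]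
      have hbd := low_pt4 h2 hτ hσ (fun ω => (hKB ω).1) hl (lam := ell * Lx p ^ (3 / 4 : ℝ)) (mu := μ₀ * Lx p ^ (1 / 2 : ℝ)) (m := m * Lx p ^ (1 / 4 : ℝ))
        (by rw [hz3]; positivity) (by rw [hz2]; positivity) hA1 (e := 1 / 2 ^ P p) (by positivity) (hn0 p) (Rt := Rt p)
        (fun i _ => lt_of_lt_of_le (by positivity) (hRlo p i))
        (fun i _ => by
          refine hA2.trans (mul_le_mul_of_nonneg_right ?_ (by positivity))
          refine le_trans ?_ (hRlo p i)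
          refine pow_le_pow_right₀ (by norm_num) ?_
          have h1 := hP2 p
          rw [hP] at h1
          simp only at h1
          omega)
        (fun i _ j _ hij => by
          refine hA2.trans (mul_le_mul_of_nonneg_right ?_ (by positivity))
          rw [hRt]
          have e5 : (2 : ℝ) ^ p * (1 + b / 2) + j * 2 ^ P p - (2 ^ p * (1 + b / 2) + i * 2 ^ P p) = ((j : ℝ) - i) * 2 ^ P p := by ring
          simp only
          rw [e5, abs_mul, abs_of_pos (by positivity : (0 : ℝ) < 2 ^ P p)]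
          have e6 : (1 : ℝ) ≤ |(j : ℝ) - i| := by
            have e7 : (1 : ℤ) ≤ |(j : ℤ) - i| := Int.one_le_abs (by omega)
            have e8 : ((1 : ℤ) : ℝ) ≤ ((|(j : ℤ) - i| : ℤ) : ℝ) := by exact_mod_cast e7
            push_cast at e8
            exact e8
          rw [hP]
          exact le_mul_of_one_le_left (by positivity) e6)
        (fun i hi j hj => by
          rw [hRt]
          have e5 : (2 : ℝ) ^ p * (1 + b / 2) + j * 2 ^ P p - (2 ^ p * (1 + b / 2) + i * 2 ^ P p) = ((j : ℝ) - i) * 2 ^ P p := by ring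
          simp only
          rw [e5, abs_mul, abs_of_pos (by positivity : (0 : ℝ) < 2 ^ P p)]
          have e6 : |(j : ℝ) - i| ≤ n p := by
            have h1 : (i : ℝ) ≤ n p := by exact_mod_cast hi.le
            have h3 : (j : ℝ) ≤ n p := by exact_mod_cast hj.le
            have h4 : (0 : ℝ) ≤ i := Nat.cast_nonneg _
            have h5 : (0 : ℝ) ≤ j := Nat.cast_nonneg _
            rw [abs_le]
            constructor <;> linarith only [h1, h3]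
          have e7 := hRlo p i
          rw [hRt] at e7
          simp only at e7
          rw [one_div, inv_mul_eq_div, le_div_iff₀ (by positivity)]
          calc |(j : ℝ) - i| * 2 ^ P p * 2 ^ P p ≤ n p * 2 ^ P p * 2 ^ P p := by (clear * - e6; gcongr)
            _ = 2 ^ p := hnP p
            _ ≤ _ := e7)
        (δ := 2 ^ (-(θ / 4 * (p : ℝ)))) (by positivity) hδ2 (by rw [hP]; exact hδ)
        (h := h * Lx p ^ (3 / 4 : ℝ)) (e1 := e1 * Lx p ^ (1 / 4 : ℝ)) (t := 9 / 10 * e * Lx p ^ (1 / 4 : ℝ)) (V := (s + e2 / 2) * Lx p) (W := s * Lx p)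
        (by rw [hz3]; positivity) (by positivity)
        (by
          obtain ⟨z, hzz⟩ : ∃ z : ℝ, z = Lx p ^ (1 / 4 : ℝ) := ⟨_, rfl⟩
          rw [hz2, ← hzz]
          rw [← hzz] at hz4 hz0
          rw [hz4] at hlog2 ⊢
          have hz40 : 0 ≤ z ^ 4 := by positivity
          have q0 : s * z ^ 4 ≤ (1 - e2) * z ^ 4 := mul_le_mul_of_nonneg_right hs hz40
          have q1 : μ₀ * z ^ 2 * (e1 * z) ^ 2 = μ₀ * e1 ^ 2 * z ^ 4 := by ring
          have q2 : μ₀ * z ^ 2 * (9 / 10 * e * z) ^ 2 = 81 / 100 * (μ₀ * e ^ 2) * z ^ 4 := by ring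
          rw [q1, q2]
          have q3 : μ₀ * e1 ^ 2 * z ^ 4 ≤ e2 / 4 * z ^ 4 := mul_le_mul_of_nonneg_right hc hz40
          have q4 : 81 / 100 * 2 * z ^ 4 ≤ 81 / 100 * (μ₀ * e ^ 2) * z ^ 4 := mul_le_mul_of_nonneg_right (by linarith only [hμ1]) hz40
          have q5 : 0 ≤ e2 * z ^ 4 := by positivity
          have q6 : log 8 = 3 / 2 * log 4 := by
            rw [show (8 : ℝ) = 2 ^ 3 by norm_num, show (4 : ℝ) = 2 ^ 2 by norm_num, log_pow, log_pow]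
            push_cast
            ring
          linarith only [hlog2, hz40, q0, q3, q4, q5, q6])
        (by
          obtain ⟨z, hzz⟩ : ∃ z : ℝ, z = Lx p ^ (1 / 4 : ℝ) := ⟨_, rfl⟩
          rw [hz2, hz3, ← hzz]
          rw [← hzz] at hz4 hz0
          rw [hz4]
          have hz40 : 0 ≤ z ^ 4 := by positivity
          have q1 : μ₀ * z ^ 2 * (e1 * z) ^ 2 = μ₀ * e1 ^ 2 * z ^ 4 := by ring
          have q2 : (ell * z ^ 3) ^ 2 / (4 * (μ₀ * z ^ 2)) = ell ^ 2 / (4 * μ₀) * z ^ 4 := by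
            field_simp
          rw [q1, q2]
          have q3 : μ₀ * e1 ^ 2 * z ^ 4 ≤ e2 / 4 * z ^ 4 := mul_le_mul_of_nonneg_right hc hz40
          have q4 : ell ^ 2 / (4 * μ₀) * z ^ 4 ≤ e2 / 4 * z ^ 4 := mul_le_mul_of_nonneg_right hμ2 hz40
          linarith only [q3, q4]) (0 + v.1 / 2 ^ q p, 0 + v.2 / 2 ^ q p)
      refine hbd.trans ?_
      have hV : exp ((s + e2 / 2) * Lx p) / n p ≤ 2 ^ (-(θ / 4 * (p : ℝ))) := by
        rw [div_le_iff₀ (by exact_mod_cast hn0 p)]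
        have e5 : exp ((s + e2 / 2) * Lx p) = 2 ^ ((s + e2 / 2) * (p : ℝ)) := by
          rw [rpow_def_of_pos (by norm_num)]
          congr 1
          unfold Lx
          ring
        have e6 : (n p : ℝ) = 2 ^ ((p : ℝ) - 2 * P p) := by
          rw [hn]
          simp only [Nat.cast_pow, Nat.cast_ofNat]
          rw [← rpow_natCast, Nat.cast_sub (hP2 p)]
          push_cast
          rfl
        rw [e5, e6, ← rpow_add (by norm_num)]
        refine two_rpow_le ?_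
        have h3 := hPle p
        have h4 : (0 : ℝ) ≤ θ * p := by positivity
        have h5 : e2 = 8 * θ := by rw [hθ]; ring
        have h6 : s * p ≤ (1 - e2) * p := mul_le_mul_of_nonneg_right hs (Nat.cast_nonneg _)
        rw [h5] at h6 ⊢
        nlinarith only [h3, h6]
      have e7 : 4 * exp ((s + e2 / 2) * Lx p) / (n p : ℝ) = 4 * (exp ((s + e2 / 2) * Lx p) / n p) := by ring
      rw [e7]
      linarith only [hV]
    rw [hE]
    refine (measureReal_biUnion_finset_le _ _).trans ((Finset.sum_le_sum h1).trans ?_)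
    rw [Finset.sum_const, nsmul_eq_mul]
    have hqp : (q p : ℝ) ≤ θ / 16 * p + 1 := by
      rw [hq]
      exact (Nat.ceil_lt_add_one (by positivity)).le
    have hcard : ((I p).card : ℝ) ≤ 2 ^ (2 * q p + 2 : ℝ) := by
      rw [hI]
      simp only [Finset.card_product, Finset.card_range, one_mul]
      have e1' : 1 ≤ 2 ^ q p := Nat.one_le_two_pow
      have e3' : (2 ^ q p + 1) * (2 ^ q p + 1) ≤ (2 * 2 ^ q p) * (2 * 2 ^ q p) := by
        gcongr <;> omega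
      have e4 : (((2 ^ q p + 1) * (2 ^ q p + 1) : ℕ) : ℝ) ≤ (((2 * 2 ^ q p) * (2 * 2 ^ q p) : ℕ) : ℝ) := by exact_mod_cast e3'
      refine e4.trans (le_of_eq ?_)
      rw [show 2 * (q p : ℝ) + 2 = ((2 * q p + 2 : ℕ) : ℝ) by push_cast; ring, rpow_natCast]
      push_cast
      ring
    calc ((I p).card : ℝ) * (28 * (2 : ℝ) ^ (-(θ / 4 * p))) ≤ 2 ^ (2 * q p + 2 : ℝ) * (28 * (2 : ℝ) ^ (-(θ / 4 * p))) :=
          mul_le_mul_of_nonneg_right hcard (by positivity)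
      _ = 28 * (2 : ℝ) ^ (2 * q p + 2 + -(θ / 4 * p) : ℝ) := by
          rw [rpow_add (by norm_num : (0 : ℝ) < 2) (2 * q p + 2 : ℝ)]
          ring
      _ ≤ 28 * (2 : ℝ) ^ (4 + -(θ / 8 * p) : ℝ) := by
          refine mul_le_mul_of_nonneg_left (two_rpow_le ?_) (by norm_num)
          linarith only [hqp]
      _ = _ := by
          rw [rpow_add (by norm_num)]
          norm_num
          ring
  filter_upwards [bcl (by norm_num) (by positivity) hmeas] with ω hω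
  obtain ⟨p₃, hp₃⟩ := hω
  refine ⟨p₁ + p₃, fun p hpp d1 d2 d3 c => ?_⟩
  have hnot := hp₃ p (by omega)
  obtain ⟨l, Am, hl, hA1, hA2, hδ, hδ2, hlog1, hlog2, hgr⟩ := hp₁ p (by omega)
  obtain ⟨hz0, hz4, hz3, hz2⟩ := hz p (by omega)
  obtain ⟨j, hj, hj'⟩ := grid (x := Int.fract c.1) (s := 0) (M := 1) (q := q p) (Int.fract_nonneg _) (by
    have := (Int.fract_lt_one c.1).le
    push_cast
    linarith only [this])
  obtain ⟨j₂, hj₂, hj₂'⟩ := grid (x := Int.fract c.2) (s := 0) (M := 1) (q := q p) (Int.fract_nonneg _) (by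
    have := (Int.fract_lt_one c.2).le
    push_cast
    linarith only [this])
  have hmem : (j, j₂) ∈ I p := by
    rw [hI]
    simp only [Finset.mem_product, Finset.mem_range]
    exact ⟨hj, hj₂⟩
  have hgood : ω ∉ A p (j, j₂) := fun h => hnot (by
    rw [hE]
    exact mem_biUnion hmem h)
  obtain ⟨z, hzz⟩ : ∃ z : ℝ, z = Lx p ^ (1 / 4 : ℝ) := ⟨_, rfl⟩
  obtain ⟨G, hG⟩ : ∃ G : Finset ℕ, G = (Finset.range (n p)).filter fun i => m * z - 9 / 10 * e * z ≤ σ * Mx (Hx H₀ τ ω) (NN a p) (Rt p i) (0 + j / 2 ^ q p, 0 + j₂ / 2 ^ q p) := ⟨_, rfl⟩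
  have hGc : (n p : ℝ) < G.card * (8 * exp ((s + e2 / 2) * Lx p)) := by
    by_contra hcon
    push Not at hcon
    refine hgood ?_
    rw [hA]
    refine ⟨?_, ?_, ?_, ?_⟩
    · rw [← add_mul]
      refine d1.trans ?_
      rw [hz3, ← hzz]
      rw [← hzz] at hz4
      rw [hz4] at hlog1 ⊢
      have e5 : h * z ^ 3 * (m * z + e1 * z) = h * (m + e1) * z ^ 4 := by ring
      rw [e5]
      linarith only [hlog1]
    · rw [← sub_mul]
      refine d2.trans ?_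
      rw [hz3, ← hzz]
      rw [← hzz] at hz4
      rw [hz4] at hlog1 ⊢
      have e5 : h * z ^ 3 * (m * z - e1 * z) = h * (m - e1) * z ^ 4 := by ring
      rw [e5]
      linarith only [hlog1]
    · refine le_trans (le_of_eq ?_) d3
      congr 1
      rw [hz3, ← hzz]
      rw [← hzz] at hz4
      rw [hz4]
      ring
    · refine le_trans (le_of_eq ?_) hcon
      congr 1
      rw [hG, Finset.card_filter, ← hzz]
      push_cast
      rfl
  have hp0 : (1 : ℝ) ≤ θ / 4 * p := by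
    have h1 : (2 : ℝ) ^ (-(θ / 4 * p)) ≤ 2 ^ (-1 : ℝ) := by
      refine hδ2.trans (le_of_eq ?_)
      rw [rpow_neg_one]
      norm_num
    have h3 := (rpow_le_rpow_left_iff (by norm_num : (1 : ℝ) < 2)).1 h1
    linarith only [h3]
  have hP1 : 1 ≤ P p := by
    rw [hP]
    refine Nat.le_floor ?_
    push_cast
    linarith only [hp0]
  have hq1 : (2 : ℝ) ^ (θ / 16 * (p : ℝ)) ≤ 2 ^ q p := by
    rw [← rpow_natCast 2 (q p)]
    refine two_rpow_le ?_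
    rw [hq]
    exact Nat.le_ceil _
  have hq1' : (1 : ℝ) ≤ 2 ^ q p := one_le_pow₀ (by norm_num)
  have hqinv : (1 : ℝ) / 2 ^ q p ≤ 1 := by
    rw [div_le_one (by positivity)]
    exact hq1'
  -- every good time gives an interval
  have hsubs : ∀ i ∈ G, Ico (Rt p i) (Rt p i + 1 / 2 ^ q p) ⊆ {R : ℝ | R ∈ Icc ((2 : ℝ) ^ p * (1 + b / 2)) (2 ^ p * (1 + (b + 1) / 2)) ∧
        (m - e) * Lx p ^ (1 / 4 : ℝ) ≤ σ * Mx (Hx H₀ τ ω) (NN a p) R c} := by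
    rintro i hi R ⟨hR1, hR2⟩
    rw [hG, Finset.mem_filter, Finset.mem_range] at hi
    obtain ⟨hi, hgi⟩ := hi
    have hhi := hRhi p i hi hP1
    refine ⟨⟨(hRlo2 p i).trans hR1, by linarith only [hqinv, hR2, hhi]⟩, ?_⟩
    have hper := Mx_per (Hx H₀ τ ω) (NN a p) R (Int.fract c.1, Int.fract c.2) ⌊c.1⌋ ⌊c.2⌋
    simp only [Int.fract_add_floor] at hper
    have hce : Mx (Hx H₀ τ ω) (NN a p) R c = Mx (Hx H₀ τ ω) (NN a p) R (Int.fract c.1, Int.fract c.2) := hper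
    have hlip := Mx_lip (hKB ω).1 (hKB ω).2 (NN_pos a p) R (Rt p i) (Int.fract c.1, Int.fract c.2) (0 + j / 2 ^ q p, 0 + j₂ / 2 ^ q p)
    have hD : |R - Rt p i| + |Int.fract c.1 - (0 + (j : ℝ) / 2 ^ q p)| + |Int.fract c.2 - (0 + (j₂ : ℝ) / 2 ^ q p)| ≤ 3 / 2 * (2 / 2 ^ (θ / 16 * (p : ℝ))) := by
      have h3 : (1 : ℝ) / 2 ^ q p ≤ 1 / 2 ^ (θ / 16 * (p : ℝ)) := div_le_div_of_nonneg_left (by norm_num) (by positivity) hq1
      have h4 : |R - Rt p i| ≤ 1 / 2 ^ q p := by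
        rw [abs_of_nonneg (by linarith only [hR1])]
        linarith only [hR2]
      have h5 : (3 : ℝ) / 2 * (2 / (2 : ℝ) ^ (θ / 16 * (p : ℝ))) = 1 / (2 : ℝ) ^ (θ / 16 * (p : ℝ)) + 1 / (2 : ℝ) ^ (θ / 16 * (p : ℝ)) + 1 / (2 : ℝ) ^ (θ / 16 * (p : ℝ)) := by ring
      linarith only [hj', hj₂', h3, h4, h5]
    have hlip2 : |Mx (Hx H₀ τ ω) (NN a p) R c - Mx (Hx H₀ τ ω) (NN a p) (Rt p i) (0 + j / 2 ^ q p, 0 + j₂ / 2 ^ q p)| ≤ e / 10 * z := by
      rw [hce]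
      refine hlip.trans ?_
      refine (mul_le_mul_of_nonneg_left hD (by (clear * - hK1 hB0; positivity))).trans ?_
      rw [← hzz] at hgr
      linarith only [hgr]
    have hfin : σ * Mx (Hx H₀ τ ω) (NN a p) (Rt p i) (0 + j / 2 ^ q p, 0 + j₂ / 2 ^ q p) - σ * Mx (Hx H₀ τ ω) (NN a p) R c ≤ e / 10 * z := by
      rw [← mul_sub]
      refine (le_abs_self _).trans ?_
      rw [abs_mul, hσ, one_mul, abs_sub_comm]
      exact hlip2
    rw [← hzz]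
    linarith only [hgi, hfin]
  have hpk := pack_vol (G := G) (x := Rt p) (δ := 1 / 2 ^ q p) (by positivity) (fun i i' hii => by
    rw [hRt]
    simp only
    have h1 : (i : ℝ) + 1 ≤ i' := by exact_mod_cast hii
    have h3 : (1 : ℝ) ≤ 2 ^ P p := one_le_pow₀ (by norm_num)
    have h4 : ((i : ℝ) + 1) * 2 ^ P p ≤ i' * 2 ^ P p := mul_le_mul_of_nonneg_right h1 (by positivity)
    linarith only [hqinv, h3, h4]) hsubs (((measure_mono fun R hR => hR.1).trans_lt measure_Icc_lt_top).ne)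
  refine le_trans ?_ hpk
  have hqp : (q p : ℝ) ≤ θ / 16 * p + 1 := by
    rw [hq]
    exact (Nat.ceil_lt_add_one (by positivity)).le
  have hexp : exp ((s + e2 / 2) * Lx p) = 2 ^ ((s + e2 / 2) * (p : ℝ)) := by
    rw [rpow_def_of_pos (by norm_num)]
    congr 1
    unfold Lx
    ring
  have hnr : (n p : ℝ) = 2 ^ ((p : ℝ) - 2 * P p) := by
    rw [hn]
    simp only [Nat.cast_pow, Nat.cast_ofNat]
    rw [← rpow_natCast, Nat.cast_sub (hP2 p)]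
    push_cast
    rfl
  rw [hexp, hnr] at hGc
  have h8 : (8 : ℝ) = 2 ^ (3 : ℝ) := by norm_num
  have hqq : (1 : ℝ) / 2 ^ q p = 2 ^ (-(q p : ℝ)) := by
    rw [rpow_neg (by norm_num), rpow_natCast, one_div]
  rw [hqq]
  have h9 : (2 : ℝ) ^ ((p : ℝ) - 2 * P p - (3 + (s + e2 / 2) * p)) ≤ G.card := by
    rw [rpow_sub (by norm_num), rpow_add (by norm_num : (0 : ℝ) < 2) 3, ← h8, div_le_iff₀ (by positivity)]
    exact hGc.le
  calc (2 : ℝ) ^ ((1 - s - e2) * p : ℝ) ≤ 2 ^ ((p : ℝ) - 2 * P p - (3 + (s + e2 / 2) * p) + -(q p : ℝ)) := by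
        refine two_rpow_le ?_
        have h10 := hPle p
        have h11 : e2 = 8 * θ := by rw [hθ]; ring
        rw [h11]
        linarith only [hp0, hqp, h10]
    _ = 2 ^ ((p : ℝ) - 2 * P p - (3 + (s + e2 / 2) * p)) * 2 ^ (-(q p : ℝ)) := rpow_add (by norm_num) _ _
    _ ≤ _ := mul_le_mul_of_nonneg_right h9 (by positivity)

end Pool.Agent.Helper22.AI
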