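import Pool.Agent.Helper93.AO.DefsL
import Pool.Agent.Helper22.AI.Jet
import Pool.Agent.Helper93.AO.Sec

/-!
# AO-TERM: the terms of the sums satisfy `Rep`

`tm_rep`: with `t = pos f α k`, `t₀ = tr (fk f k)`, `F = Fm l (m k % 8)`, `jet_upd` gives (`ga H α t₀ = H t cos α - H' t sin α`, `Hx = H₀ + τ W`, derivatives add as `H₀`, `W` are `C³`, `C⁵`)
`ga (upd x ω) = ga (upd om0 ω) + τ/2^(21 l) (ξ cos (t₀ - th) + η 16^l sin (t₀ - th))` because `cos (t - th) cos α + sin (t - th) sin α = cos (t - th - α)`, `sin (t - th) cos α - cos (t - th) sin α = sin (t - th - α)`;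
times `r nr(fk)`: `nr v cos (tr v - θ) = pu θ v`, `nr v sin (tr v - θ) = pv θ v` (`nr_cos`, `nr_sin`). `rho = H + H''` is unchanged. `ee_add`.
`tm_meas`: `WW_cont`, `WW_cont1`, `WW_cont2` (continuous in `ω`). `tm_bd`: `N ≤ C nr (fk f k)` (`sec_low` in AO-SEC, its stub may be imported and cited), `rho (Hx …) = rho H₀ + τ rho W` is bounded by `K + C |τ|`.
-/

open MeasureTheory Real Set Filter Topology

set_option autoImplicit false
set_option linter.unusedSectionVars false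

namespace Pool.Agent.Helper22.AI

open Pool.Agent.Helper93.AO

variable [Amp]

open Pool.Agent.Helper22.AE (ee rho)
open Pool.Agent.Helper22.AC (ga)
open Pool.Agent.Helper92.GC (dt sqa)
open Pool.Agent.Helper22.LP (Fr fk fdet nr tr hom LS wr Hf)
open Pool.Agent.Helper92.LA (Fb)

private lemma deriv_hx34 {H₀ : ℝ → ℝ} (h2 : ContDiff ℝ 2 H₀) (τ : ℝ) (ω : Om) :
    deriv (Hx H₀ τ ω) = fun t => deriv H₀ t + τ * deriv (WW ω) t := by
  funext t
  have h1 : DifferentiableAt ℝ H₀ t := (h2.differentiable (by norm_num)).differentiableAt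
  have h3 : DifferentiableAt ℝ (WW ω) t := ((WW_smooth ω).differentiable (by norm_num)).differentiableAt
  have h4 : HasDerivAt (Hx H₀ τ ω) (deriv H₀ t + τ * deriv (WW ω) t) t :=
    h1.hasDerivAt.add (h3.hasDerivAt.const_mul τ)
  exact h4.deriv

private lemma deriv2_hx34 {H₀ : ℝ → ℝ} (h2 : ContDiff ℝ 2 H₀) (τ : ℝ) (ω : Om) :
    deriv (deriv (Hx H₀ τ ω)) = fun t => deriv (deriv H₀) t + τ * deriv (deriv (WW ω)) t := by
  rw [deriv_hx34 h2]
  funext t
  have h1 : Differentiable ℝ (deriv H₀) := by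
    have := ContDiff.differentiable_iteratedDeriv 1 h2 (by norm_num)
    rwa [iteratedDeriv_one] at this
  have h3 : Differentiable ℝ (deriv (WW ω)) := by
    have := ContDiff.differentiable_iteratedDeriv 1 (WW_smooth ω) (by norm_num)
    rwa [iteratedDeriv_one] at this
  have h4 : HasDerivAt (fun t => deriv H₀ t + τ * deriv (WW ω) t)
      (deriv (deriv H₀) t + τ * deriv (deriv (WW ω)) t) t :=
    (h1 t).hasDerivAt.add ((h3 t).hasDerivAt.const_mul τ)
  exact h4.deriv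

/-- the random support function is bounded in `C³`, uniformly in the sample -/
theorem hx_hb (τ : ℝ) : ∃ B₁ : ℝ, 0 ≤ B₁ ∧ ∀ (B : ℝ) (H₀ : ℝ → ℝ), HB B H₀ → ∀ ω : Om, HB (B + B₁) (Hx H₀ τ ω) := by
  obtain ⟨C, hC0, hC⟩ := WW_bound
  refine ⟨|τ| * C, by positivity, fun B H₀ h ω => ?_⟩
  have hW : ContDiff ℝ 3 (WW ω) := (WW_smooth ω).of_le (by norm_num)
  refine ⟨?_, ?_, ?_⟩
  · exact h.smooth.add (contDiff_const.mul hW)
  · intro t
    unfold Hx
    rw [h.per t, WW_per ω t]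
  · intro j hj t
    have e : iteratedDeriv j (Hx H₀ τ ω) t = iteratedDeriv j H₀ t + τ * iteratedDeriv j (WW ω) t := by
      have hjn : ((j : ℕ) : WithTop ℕ∞) ≤ 3 := by exact_mod_cast hj
      have a1 : ContDiffAt ℝ j H₀ t := (h.smooth.of_le hjn).contDiffAt
      have a2 : ContDiffAt ℝ j (fun t => τ * WW ω t) t := (contDiff_const.mul (hW.of_le hjn)).contDiffAt
      have := iteratedDeriv_fun_add a1 a2
      rw [iteratedDeriv_const_mul_field] at this
      exact this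
    rw [e]
    calc |iteratedDeriv j H₀ t + τ * iteratedDeriv j (WW ω) t|
        ≤ |iteratedDeriv j H₀ t| + |τ * iteratedDeriv j (WW ω) t| := abs_add_le _ _
      _ ≤ B + |τ| * C := by
        rw [abs_mul]
        exact add_le_add (h.bd j hj t) (mul_le_mul_of_nonneg_left (hC j (by omega) ω t) (abs_nonneg _))

/-- the radius of curvature of the random support function -/
theorem hx_rho {H₀ : ℝ → ℝ} (h2 : ContDiff ℝ 2 H₀) (τ : ℝ) (ω : Om) (t : ℝ) : rho (Hx H₀ τ ω) t = rho H₀ t + τ * rho (WW ω) t := by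
  unfold rho
  rw [deriv2_hx34 h2]
  unfold Hx
  ring

private lemma nr_cos34 (v : ℝ × ℝ) (θ : ℝ) : nr v * cos (tr v - θ) = pu θ v := by
  have a1 : nr v * cos (tr v) = v.1 := Complex.norm_mul_cos_arg (Helper22.LP.cp v)
  have a2 : nr v * sin (tr v) = v.2 := Complex.norm_mul_sin_arg (Helper22.LP.cp v)
  unfold pu
  rw [cos_sub, mul_add, ← mul_assoc, ← mul_assoc, a1, a2]

private lemma nr_sin34 (v : ℝ × ℝ) (θ : ℝ) : nr v * sin (tr v - θ) = pv θ v := by
  have a1 : nr v * cos (tr v) = v.1 := Complex.norm_mul_cos_arg (Helper22.LP.cp v)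
  have a2 : nr v * sin (tr v) = v.2 := Complex.norm_mul_sin_arg (Helper22.LP.cp v)
  unfold pv
  rw [sin_sub, mul_sub, ← mul_assoc, ← mul_assoc, a1, a2]
  ring

private lemma ga_upd34 {H₀ : ℝ → ℝ} (h2 : ContDiff ℝ 2 H₀) (τ α : ℝ) {l m : ℕ} {t₀ : ℝ} (hm : m < 4 * 16 ^ l)
    (ht : |16 ^ l * sin ((t₀ + α - th l m) / 2)| ≤ 4 / 5) (x ω : Om) :
    ga (Hx H₀ τ (upd (Fm l (m % 8)) x ω)) α t₀ = ga (Hx H₀ τ (upd (Fm l (m % 8)) om0 ω)) α t₀ +
      τ / 2 ^ (Amp.am l) * (((x (l, m)).1 : ℝ) * cos (t₀ - th l m) + ((x (l, m)).2 : ℝ) * (16 ^ l * sin (t₀ - th l m))) := by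
  obtain ⟨j1, j2, -⟩ := jet_upd hm ht x ω
  unfold ga
  rw [deriv_hx34 h2, deriv_hx34 h2]
  unfold Hx
  beta_reduce
  rw [j1, j2]
  have c1 : cos (t₀ - th l m) = cos (t₀ + α - th l m) * cos α + sin (t₀ + α - th l m) * sin α := by
    rw [← cos_sub]
    congr 1
    ring
  have c2 : sin (t₀ - th l m) = sin (t₀ + α - th l m) * cos α - cos (t₀ + α - th l m) * sin α := by
    rw [← sin_sub]
    congr 1
    ring
  rw [c1, c2]
  ring

private lemma rho_upd34 {H₀ : ℝ → ℝ} (h2 : ContDiff ℝ 2 H₀) (τ : ℝ) {l m : ℕ} {t : ℝ} (hm : m < 4 * 16 ^ l)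
    (ht : |16 ^ l * sin ((t - th l m) / 2)| ≤ 4 / 5) (x ω : Om) :
    rho (Hx H₀ τ (upd (Fm l (m % 8)) x ω)) t = rho (Hx H₀ τ (upd (Fm l (m % 8)) om0 ω)) t := by
  obtain ⟨j1, -, j3⟩ := jet_upd hm ht x ω
  rw [hx_rho h2, hx_rho h2]
  unfold rho
  rw [j1, j3]
  ring

theorem tm_rep {H₀ : ℝ → ℝ} (h3 : ContDiff ℝ 3 H₀) (τ : ℝ) (f : Fr) (α r : ℝ) (c : ℝ × ℝ) (i N l : ℕ) {B : Finset (ℤ × ℤ)} {m : ℤ × ℤ → ℕ}
    (hm : ∀ k ∈ B, m k < 4 * 16 ^ l) (ht : ∀ k ∈ B, |16 ^ l * sin ((pos f α k - th l (m k)) / 2)| ≤ 4 / 5) :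
    Rep B (fun k ω => Tm (Hx H₀ τ ω) f α r c i N k) l m (fun k => τ * r / 2 ^ (Amp.am l) * pu (th l (m k)) (fk f k))
      (fun k => τ * r * 16 ^ l / 2 ^ (Amp.am l) * pv (th l (m k)) (fk f k)) := by
  have h2 : ContDiff ℝ 2 H₀ := h3.of_le (by norm_num)
  refine ⟨hm, fun k hk x ω => ?_⟩
  have hmk := hm k hk
  have htk := ht k hk
  unfold Tm
  have e1 : wi i (Hx H₀ τ (upd (Fm l (m k % 8)) x ω)) α (fk f k) =
      wi i (Hx H₀ τ (upd (Fm l (m k % 8)) om0 ω)) α (fk f k) := by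
    unfold wi
    by_cases hi : i = 1
    · rw [if_pos hi, if_pos hi]
      unfold wr
      have := rho_upd34 h2 τ hmk htk x ω
      unfold pos at this
      rw [this]
    · rw [if_neg hi, if_neg hi]
  have e2 : r * hom (ga (Hx H₀ τ (upd (Fm l (m k % 8)) x ω)) α) (fk f k) + dt k c =
      (r * hom (ga (Hx H₀ τ (upd (Fm l (m k % 8)) om0 ω)) α) (fk f k) + dt k c) +
      (τ * r / 2 ^ (Amp.am l) * pu (th l (m k)) (fk f k) * ((x (l, m k)).1 : ℝ) +
        τ * r * 16 ^ l / 2 ^ (Amp.am l) * pv (th l (m k)) (fk f k) * ((x (l, m k)).2 : ℝ)) := by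
    unfold hom
    rw [ga_upd34 h2 τ α hmk htk x ω, ← nr_cos34, ← nr_sin34]
    ring
  rw [e1, e2, Helper22.AE.ee_add, ← eo_eq (τ * r / 2 ^ (Amp.am l) * pu (th l (m k)) (fk f k) * ((x (l, m k)).1 : ℝ) +
        τ * r * 16 ^ l / 2 ^ (Amp.am l) * pv (th l (m k)) (fk f k) * ((x (l, m k)).2 : ℝ))]
  ring

private lemma c0_34 (t : ℝ) : Continuous fun ω : Om => WW ω t :=
  WW_cont.comp (continuous_id.prodMk continuous_const)

private lemma c1_34 (t : ℝ) : Continuous fun ω : Om => deriv (WW ω) t :=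
  WW_cont1.comp (continuous_id.prodMk continuous_const)

private lemma c2_34 (t : ℝ) : Continuous fun ω : Om => deriv (deriv (WW ω)) t := by
  have h : Continuous fun ω : Om => ((ω, t) : Om × ℝ) := by fun_prop
  have h2 := WW_cont2.comp h
  simpa only [Function.comp_def] using h2

theorem tm_meas {H₀ : ℝ → ℝ} (h3 : ContDiff ℝ 3 H₀) (τ : ℝ) (f : Fr) (α r : ℝ) (c : ℝ × ℝ) (i N : ℕ) (k : ℤ × ℤ) :
    Measurable fun ω : Om => Tm (Hx H₀ τ ω) f α r c i N k := by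
  have h2 : ContDiff ℝ 2 H₀ := h3.of_le (by norm_num)
  have e1 : Continuous fun ω : Om => ga (Hx H₀ τ ω) α (tr (fk f k)) := by
    have h : (fun ω : Om => ga (Hx H₀ τ ω) α (tr (fk f k))) = fun ω : Om =>
        (H₀ (tr (fk f k) + α) + τ * WW ω (tr (fk f k) + α)) * cos α -
          (deriv H₀ (tr (fk f k) + α) + τ * deriv (WW ω) (tr (fk f k) + α)) * sin α := by
      funext ω
      unfold ga
      rw [deriv_hx34 h2]
      rfl
    rw [h]
    have a0 := c0_34 (tr (fk f k) + α)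
    have a1 := c1_34 (tr (fk f k) + α)
    fun_prop
  have e2 : Continuous fun ω : Om => wi i (Hx H₀ τ ω) α (fk f k) := by
    unfold wi
    by_cases hi : i = 1
    · simp only [hi, if_true]
      unfold wr
      have h : (fun ω : Om => rho (Hx H₀ τ ω) (tr (fk f k) + α)) = fun ω : Om =>
          rho H₀ (tr (fk f k) + α) + τ * (WW ω (tr (fk f k) + α) + deriv (deriv (WW ω)) (tr (fk f k) + α)) := by
        funext ω
        rw [hx_rho h2]
        rfl
      have h' : Continuous fun ω : Om => rho (Hx H₀ τ ω) (tr (fk f k) + α) := by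
        rw [h]
        have a0 := c0_34 (tr (fk f k) + α)
        have a2 := c2_34 (tr (fk f k) + α)
        fun_prop
      exact Complex.continuous_ofReal.comp h'
    · simp only [hi, if_false]
      exact continuous_const
  have e3 : Continuous fun ω : Om => Tm (Hx H₀ τ ω) f α r c i N k := by
    unfold Tm hom ee
    fun_prop
  exact e3.measurable

theorem tm_bd (τ K : ℝ) {M : ℝ} (hM : 1 ≤ M) : ∃ B : ℝ, 1 ≤ B ∧ ∀ H₀ : ℝ → ℝ, ContDiff ℝ 3 H₀ → (∀ t, |rho H₀ t| ≤ K) →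
    ∀ f : Fr, Fb M f → ∀ (ω : Om) (α r : ℝ) (c : ℝ × ℝ) (i N : ℕ), i = 1 ∨ i = 2 → 1 ≤ N → ∀ k ∈ sqa N, ‖Tm (Hx H₀ τ ω) f α r c i N k‖ ≤ B := by
  obtain ⟨C, hC1, hC⟩ := sec_low hM
  obtain ⟨D, hD0, hD⟩ := WW_bound
  have hC2 : 1 ≤ C ^ 2 := one_le_pow₀ hC1
  have hS : 1 ≤ 1 + |K| + |τ| * (2 * D) := by
    have : 0 ≤ |K| + |τ| * (2 * D) := by positivity
    linarith
  refine ⟨C ^ 2 * (1 + |K| + |τ| * (2 * D)), by nlinarith, fun H₀ h3 hK f hf ω α r c i N hi hN k hk => ?_⟩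
  have h2 : ContDiff ℝ 2 H₀ := h3.of_le (by norm_num)
  obtain ⟨b1, b2⟩ := hC f hf N hN k hk
  have hN1 : (1 : ℝ) ≤ N := by exact_mod_cast hN
  have hnr : 0 < nr (fk f k) := by
    by_contra h
    nlinarith
  have hq0 : 0 ≤ (N : ℝ) / nr (fk f k) := by positivity
  have hq : (N : ℝ) / nr (fk f k) ≤ C := (div_le_iff₀ hnr).2 b1
  have hqi : ((N : ℝ) / nr (fk f k)) ^ i ≤ C ^ 2 := by
    calc ((N : ℝ) / nr (fk f k)) ^ i ≤ C ^ i := pow_le_pow_left₀ hq0 hq i
      _ ≤ C ^ 2 := pow_le_pow_right₀ hC1 (by rcases hi with h | h <;> omega)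
  have hw : ‖wi i (Hx H₀ τ ω) α (fk f k)‖ ≤ 1 + |K| + |τ| * (2 * D) := by
    unfold wi
    split_ifs with h
    · unfold wr
      rw [Complex.norm_real, Real.norm_eq_abs, hx_rho h2]
      have h4 : |rho (WW ω) (tr (fk f k) + α)| ≤ 2 * D := by
        have a0 := hD 0 (by norm_num) ω (tr (fk f k) + α)
        have a2 := hD 2 (by norm_num) ω (tr (fk f k) + α)
        rw [iteratedDeriv_zero] at a0
        rw [iteratedDeriv_succ, iteratedDeriv_one] at a2
        unfold rho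
        calc |WW ω (tr (fk f k) + α) + deriv (deriv (WW ω)) (tr (fk f k) + α)| ≤
            |WW ω (tr (fk f k) + α)| + |deriv (deriv (WW ω)) (tr (fk f k) + α)| := abs_add_le _ _
          _ ≤ D + D := add_le_add a0 a2
          _ = 2 * D := by ring
      have h5 := (hK (tr (fk f k) + α)).trans (le_abs_self K)
      calc |rho H₀ (tr (fk f k) + α) + τ * rho (WW ω) (tr (fk f k) + α)| ≤
          |rho H₀ (tr (fk f k) + α)| + |τ * rho (WW ω) (tr (fk f k) + α)| := abs_add_le _ _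
        _ ≤ |K| + |τ| * (2 * D) := by
          rw [abs_mul]
          exact add_le_add h5 (mul_le_mul_of_nonneg_left h4 (abs_nonneg _))
        _ ≤ 1 + |K| + |τ| * (2 * D) := by linarith
    · rw [norm_one]
      exact hS
  unfold Tm
  rw [norm_mul, norm_mul, Helper22.AE.ee_norm, mul_one, norm_pow, Complex.norm_real, Real.norm_of_nonneg hq0]
  exact mul_le_mul hqi hw (norm_nonneg _) (by positivity)

end Pool.Agent.Helper22.AI
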