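import Pool.Agent.Helper22.AI.Defs
import Pool.Agent.Helper93.AO.WReg

/-!
# AI-WREG: the random function is of class `C^∞`

The derivative of order `j` of the term of level `l` is at most `C 16^(l j) 2^(-am l)`, and `am` is superlinear.
-/

open MeasureTheory Real Set Filter Topology

set_option autoImplicit false
set_option linter.unusedSectionVars false

namespace Pool.Agent.Helper22.AI

open Pool.Agent.Helper93.AO

/-- one term of a level -/
private noncomputable def tm35 (l m : ℕ) (ω : Om) (t : ℝ) : ℝ :=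
  ((ω (l, m)).1 : ℝ) * e1 l (t - th l m) + ((ω (l, m)).2 : ℝ) * e2 l (t - th l m)

private lemma lev_eq35 (l : ℕ) (ω : Om) : lev l ω = fun t => ∑ m ∈ Finset.range (4 * 16 ^ l), tm35 l m ω t := rfl

private lemma tm_smooth35 (l m : ℕ) (ω : Om) (n : ℕ) : ContDiff ℝ n (tm35 l m ω) := by
  unfold tm35
  have h1 : ContDiff ℝ n (fun t => e1 l (t - th l m)) := (e1_smooth l n).comp (contDiff_id.sub contDiff_const)
  have h2 : ContDiff ℝ n (fun t => e2 l (t - th l m)) := (e2_smooth l n).comp (contDiff_id.sub contDiff_const)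
  exact (contDiff_const.mul h1).add (contDiff_const.mul h2)

private lemma tm_iter35 (l m : ℕ) (ω : Om) (j : ℕ) (t : ℝ) : iteratedDeriv j (tm35 l m ω) t =
    ((ω (l, m)).1 : ℝ) * iteratedDeriv j (e1 l) (t - th l m) + ((ω (l, m)).2 : ℝ) * iteratedDeriv j (e2 l) (t - th l m) := by
  unfold tm35
  have h1 : ContDiff ℝ j (fun t => e1 l (t - th l m)) := (e1_smooth l j).comp (contDiff_id.sub contDiff_const)
  have h2 : ContDiff ℝ j (fun t => e2 l (t - th l m)) := (e2_smooth l j).comp (contDiff_id.sub contDiff_const)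
  rw [iteratedDeriv_fun_add (contDiff_const.mul h1).contDiffAt (contDiff_const.mul h2).contDiffAt,
    iteratedDeriv_const_mul_field, iteratedDeriv_const_mul_field, iteratedDeriv_comp_sub_const, iteratedDeriv_comp_sub_const]

private lemma abs_J35 (x : J1) : |(x : ℝ)| ≤ 1 := abs_le.2 ⟨x.2.1, x.2.2⟩

private lemma lev_bd35 {C : ℝ} {j : ℕ}
    (h : ∀ l : ℕ, ∀ x : ℝ, |iteratedDeriv j (e1 l) x| ≤ C * 16 ^ (l * j) ∧ |iteratedDeriv j (e2 l) x| ≤ C * 16 ^ (l * j))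
    (l : ℕ) (ω : Om) (t : ℝ) : |iteratedDeriv j (lev l ω) t| ≤ 18 * C * 16 ^ (l * j) := by
  have hC0 : 0 ≤ C * 16 ^ (l * j) := (abs_nonneg _).trans (h l 0).1
  rw [lev_eq35, iteratedDeriv_fun_sum fun m _ => (tm_smooth35 l m ω j).contDiffAt]
  have hz : ∀ m ∈ Finset.range (4 * 16 ^ l), ¬ (|16 ^ l * sin ((t - th l m) / 2)| ≤ 2) → iteratedDeriv j (tm35 l m ω) t = 0 := by
    intro m _ hm
    obtain ⟨z1, z2⟩ := e_zero (not_le.1 hm)
    rw [tm_iter35, Filter.EventuallyEq.iteratedDeriv_eq j z1, Filter.EventuallyEq.iteratedDeriv_eq j z2]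
    simp
  have hb : ∀ m : ℕ, |iteratedDeriv j (tm35 l m ω) t| ≤ 2 * (C * 16 ^ (l * j)) := by
    intro m
    rw [tm_iter35]
    refine (abs_add_le _ _).trans ?_
    rw [abs_mul, abs_mul]
    have a1 := mul_le_mul (abs_J35 (ω (l, m)).1) (h l (t - th l m)).1 (abs_nonneg _) zero_le_one
    have a2 := mul_le_mul (abs_J35 (ω (l, m)).2) (h l (t - th l m)).2 (abs_nonneg _) zero_le_one
    linarith
  rw [← Finset.sum_filter_add_sum_filter_not (Finset.range (4 * 16 ^ l)) (fun m => |16 ^ l * sin ((t - th l m) / 2)| ≤ 2),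
    Finset.sum_eq_zero (s := (Finset.range (4 * 16 ^ l)).filter fun m => ¬ (|16 ^ l * sin ((t - th l m) / 2)| ≤ 2))
      (fun m hm => hz m (Finset.mem_filter.1 hm).1 (Finset.mem_filter.1 hm).2), add_zero]
  refine (Finset.abs_sum_le_sum_abs _ _).trans ?_
  refine (Finset.sum_le_card_nsmul _ _ _ fun m _ => hb m).trans ?_
  rw [nsmul_eq_mul]
  have hc : ((((Finset.range (4 * 16 ^ l)).filter fun m => |16 ^ l * sin ((t - th l m) / 2)| ≤ 2).card : ℕ) : ℝ) ≤ 9 := by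
    exact_mod_cast act_card l t
  nlinarith [mul_le_mul_of_nonneg_right hc hC0]

theorem lev_bound_all (k : ℕ) : ∃ C : ℝ, 0 < C ∧ ∀ l j : ℕ, j ≤ k → ∀ (ω : Om) (t : ℝ), |iteratedDeriv j (lev l ω) t| ≤ C * 16 ^ (l * j) := by
  obtain ⟨C, hC⟩ := e_bound_all k
  refine ⟨18 * |C| + 1, by positivity, fun l j hj ω t => (lev_bd35 (C := C) (fun l x => hC l j hj x) l ω t).trans ?_⟩
  have : (0 : ℝ) < 16 ^ (l * j) := by positivity
  nlinarith [le_abs_self C]

variable [Amp]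

/-- the term of level `l` -/
private noncomputable def ft35 (ω : Om) (l : ℕ) (t : ℝ) : ℝ := lev l ω t / 2 ^ (Amp.am l)

private lemma ft_smooth35 (ω : Om) (l : ℕ) (n : ℕ) : ContDiff ℝ n (ft35 ω l) := by
  unfold ft35
  exact (lev_smooth l ω n).div_const _

private lemma ft_iter35 (ω : Om) (l j : ℕ) (t : ℝ) : iteratedDeriv j (ft35 ω l) t = iteratedDeriv j (lev l ω) t / 2 ^ (Amp.am l) := by
  unfold ft35
  rw [iteratedDeriv_div_const]

/-- the derivatives up to the order `k` of the terms decrease geometrically -/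
theorem term_bound (k : ℕ) : ∃ C : ℝ, 0 < C ∧ ∀ l j : ℕ, j ≤ k → ∀ (ω : Om) (t : ℝ), |iteratedDeriv j (lev l ω) t| / 2 ^ (Amp.am l) ≤ C * (1 / 2) ^ l := by
  obtain ⟨C, hC0, hC⟩ := lev_bound_all k
  obtain ⟨c, hc⟩ := Amp.sup (4 * k + 1)
  refine ⟨C * 2 ^ c, by positivity, fun l j hj ω t => ?_⟩
  have h1 := hC l j hj ω t
  have h2 : (16 : ℝ) ^ (l * j) ≤ 2 ^ (4 * k * l) := by
    have e : (16 : ℝ) ^ (l * j) = 2 ^ (4 * (l * j)) := by
      rw [pow_mul (2 : ℝ) 4]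
      norm_num
    rw [e]
    refine pow_le_pow_right₀ (by norm_num) ?_
    have : l * j ≤ l * k := Nat.mul_le_mul_left l hj
    calc 4 * (l * j) ≤ 4 * (l * k) := Nat.mul_le_mul_left 4 this
      _ = 4 * k * l := by ring
  have h3 : (2 : ℝ) ^ (4 * k * l) * 2 ^ l ≤ 2 ^ c * 2 ^ (Amp.am l) := by
    rw [← pow_add, ← pow_add]
    refine pow_le_pow_right₀ (by norm_num) ?_
    have := hc l
    calc 4 * k * l + l = (4 * k + 1) * l := by ring
      _ ≤ Amp.am l + c := this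
      _ = c + Amp.am l := Nat.add_comm _ _
  rw [div_le_iff₀ (by positivity), one_div, inv_pow]
  have h2l : (0 : ℝ) < 2 ^ l := by positivity
  calc |iteratedDeriv j (lev l ω) t| ≤ C * 2 ^ (4 * k * l) := h1.trans (mul_le_mul_of_nonneg_left h2 hC0.le)
    _ = C * (2 ^ (4 * k * l) * 2 ^ l) * (2 ^ l)⁻¹ := by field_simp
    _ ≤ C * (2 ^ c * 2 ^ (Amp.am l)) * (2 ^ l)⁻¹ := by gcongr
    _ = C * 2 ^ c * (2 ^ l)⁻¹ * 2 ^ (Amp.am l) := by ring

private lemma ft_bd35 {k : ℕ} {C : ℝ} (hC : ∀ l j : ℕ, j ≤ k → ∀ (ω : Om) (t : ℝ), |iteratedDeriv j (lev l ω) t| / 2 ^ (Amp.am l) ≤ C * (1 / 2) ^ l)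
    (ω : Om) (l j : ℕ) (hj : j ≤ k) (t : ℝ) : |iteratedDeriv j (ft35 ω l) t| ≤ C * (1 / 2) ^ l := by
  rw [ft_iter35, abs_div, abs_of_pos (show (0 : ℝ) < 2 ^ (Amp.am l) by positivity)]
  exact hC l j hj ω t

private lemma summ35 (C : ℝ) : Summable fun l : ℕ => C * (1 / 2 : ℝ) ^ l :=
  (summable_geometric_of_lt_one (by norm_num) (by norm_num)).mul_left C

private lemma WW_eq35 (ω : Om) : WW ω = fun t => ∑' l : ℕ, ft35 ω l t := rfl

theorem WW_smooth_all (ω : Om) (n : ℕ) : ContDiff ℝ n (WW ω) := by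
  obtain ⟨C, -, hC⟩ := term_bound n
  rw [WW_eq35]
  have := contDiff_tsum (𝕜 := ℝ) (N := ((n : ℕ) : ℕ∞)) (f := ft35 ω) (v := fun _ l => C * (1 / 2 : ℝ) ^ l)
    (fun l => by exact_mod_cast ft_smooth35 ω l n) (fun k hk => summ35 C) (fun k l x hk => by
      rw [norm_iteratedFDeriv_eq_norm_iteratedDeriv, Real.norm_eq_abs]
      exact ft_bd35 hC ω l k (by exact_mod_cast hk) x)
  exact_mod_cast this

theorem WW_smooth (ω : Om) : ContDiff ℝ 5 (WW ω) := by exact_mod_cast WW_smooth_all ω 5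

theorem WW_top (ω : Om) : ContDiff ℝ (((⊤ : ℕ∞)) : WithTop ℕ∞) (WW ω) := contDiff_infty.2 fun n => WW_smooth_all ω n

theorem WW_per (ω : Om) : Function.Periodic (WW ω) (2 * π) := by
  intro t
  unfold WW
  refine tsum_congr fun l => ?_
  congr 1
  unfold lev
  refine Finset.sum_congr rfl fun m _ => ?_
  have e : t + 2 * π - th l m = (t - th l m) + 2 * π := by ring
  rw [e, e1_per l, e2_per l]

theorem WW_deriv_all (j : ℕ) (ω : Om) (t : ℝ) :
    (Summable fun l => iteratedDeriv j (lev l ω) t / 2 ^ (Amp.am l)) ∧ iteratedDeriv j (WW ω) t = ∑' l : ℕ, iteratedDeriv j (lev l ω) t / 2 ^ (Amp.am l) := by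
  obtain ⟨C, -, hC⟩ := term_bound j
  have hs : Summable fun l => iteratedDeriv j (ft35 ω l) t :=
    Summable.of_norm_bounded (summ35 C) fun l => by
      rw [Real.norm_eq_abs]
      exact ft_bd35 hC ω l j le_rfl t
  have hsF : Summable fun l => iteratedFDeriv ℝ j (ft35 ω l) t :=
    Summable.of_norm_bounded (summ35 C) fun l => by
      rw [norm_iteratedFDeriv_eq_norm_iteratedDeriv, Real.norm_eq_abs]
      exact ft_bd35 hC ω l j le_rfl t
  have hF := iteratedFDeriv_tsum_apply (𝕜 := ℝ) (N := ((j : ℕ) : ℕ∞)) (f := ft35 ω) (v := fun _ l => C * (1 / 2 : ℝ) ^ l)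
    (fun l => by exact_mod_cast ft_smooth35 ω l j) (fun k hk => summ35 C) (fun k l x hk => by
      rw [norm_iteratedFDeriv_eq_norm_iteratedDeriv, Real.norm_eq_abs]
      exact ft_bd35 hC ω l k (by exact_mod_cast hk) x) (k := j) le_rfl t
  refine ⟨by simpa only [ft_iter35] using hs, ?_⟩
  simp only [← ft_iter35]
  rw [WW_eq35, iteratedDeriv_eq_iteratedFDeriv, hF, ContinuousMultilinearMap.tsum_eval hsF]
  rfl

theorem WW_deriv {j : ℕ} (_hj : j ≤ 5) (ω : Om) (t : ℝ) :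
    (Summable fun l => iteratedDeriv j (lev l ω) t / 2 ^ (Amp.am l)) ∧ iteratedDeriv j (WW ω) t = ∑' l : ℕ, iteratedDeriv j (lev l ω) t / 2 ^ (Amp.am l) :=
  WW_deriv_all j ω t

private lemma geo35 {C : ℝ} {f : ℕ → ℝ} (hf : ∀ l, |f l| ≤ C * (1 / 2) ^ l) : |∑' l, f l| ≤ 2 * C := by
  have h := tsum_of_norm_bounded (f := f) (g := fun l : ℕ => C * (1 / 2 : ℝ) ^ l) (a := C * 2) (by
      have h0 := (hasSum_geometric_of_lt_one (r := (1 / 2 : ℝ)) (by norm_num) (by norm_num)).mul_left C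
      have e : C * (1 - 1 / 2 : ℝ)⁻¹ = C * 2 := by norm_num
      rwa [e] at h0) fun l => by
    rw [Real.norm_eq_abs]
    exact hf l
  rw [Real.norm_eq_abs] at h
  linarith

theorem WW_bound_all (k : ℕ) : ∃ C : ℝ, 0 < C ∧ ∀ j : ℕ, j ≤ k → ∀ (ω : Om) (t : ℝ), |iteratedDeriv j (WW ω) t| ≤ C := by
  obtain ⟨C, hC0, hC⟩ := term_bound k
  refine ⟨2 * C, by positivity, fun j hj ω t => ?_⟩
  rw [(WW_deriv_all j ω t).2]
  simp only [← ft_iter35]
  exact geo35 fun l => ft_bd35 hC ω l j hj t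

theorem WW_bound : ∃ C : ℝ, 0 < C ∧ ∀ j : ℕ, j ≤ 5 → ∀ (ω : Om) (t : ℝ), |iteratedDeriv j (WW ω) t| ≤ C := WW_bound_all 5

end Pool.Agent.Helper22.AI
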